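import Pool.Agent.Work.MP_41a257_ag.Defs

-- merged part: Pool.Agent.Work.MP_41a257_ag.Loc
section
/-!
The local ring `k[e, w]` at the origin and the discrete valuation ring `k[e, u]` at `(e)`,
for algebraically independent elements of a field `K`.
-/

open IsLocalRing MvPolynomial

namespace Pool.Agent.Work.MP_41a257_ag

variable (k : Type*) [Field k] {K : Type*} [Field K] [Algebra k K]

abbrev P2 (k : Type*) [Field k] := MvPolynomial (Fin 2) k

noncomputable def ev (e w : K) : P2 k →ₐ[k] K := aeval ![e, w]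

@[simp] lemma ev_X0 (e w : K) : ev k e w (X 0) = e := by simp [ev]
@[simp] lemma ev_X1 (e w : K) : ev k e w (X 1) = w := by simp [ev]
@[simp] lemma ev_C (e w : K) (c : k) : ev k e w (C c) = algebraMap k K c := by simp [ev]

def Indep (e w : K) : Prop := Function.Injective (ev k e w)

noncomputable abbrev m0 : Ideal (P2 k) := idealOfVars (Fin 2) k

variable {k}

lemma mem_m0 (F : P2 k) : F ∈ m0 k ↔ constantCoeff F = 0 := by
  have := mem_pow_idealOfVars_iff' (σ := Fin 2) (R := k) 1 F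
  rw [pow_one] at this
  rw [this]
  constructor
  · intro h
    exact h 0 (by simp)
  · intro h x hx
    have : x = 0 := by
      have : Finsupp.degree x = 0 := by omega
      exact (Finsupp.degree_eq_zero_iff x).mp this
    subst this
    exact h

lemma X_mem_m0 (i : Fin 2) : (X i : P2 k) ∈ m0 k := by
  rw [mem_m0]; simp

lemma Indep.ne_zero {e w : K} (h : Indep k e w) {G : P2 k} (hG : G ≠ 0) : ev k e w G ≠ 0 := by
  intro h0
  exact hG (h (by simpa using h0))

lemma Indep.left_ne {e w : K} (h : Indep k e w) : e ≠ 0 := by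
  simpa using h.ne_zero (X_ne_zero (0 : Fin 2))

lemma Indep.right_ne {e w : K} (h : Indep k e w) : w ≠ 0 := by
  simpa using h.ne_zero (X_ne_zero (1 : Fin 2))

lemma ne_zero_of_cc {G : P2 k} (hG : constantCoeff G ≠ 0) : G ≠ 0 := by
  rintro rfl; simp at hG

lemma ne_zero_of_nd {G : P2 k} (hG : ¬ X 0 ∣ G) : G ≠ 0 := by
  rintro rfl; simp at hG

/-- Substitution homomorphisms. -/
lemma ev_comp (e w : K) (A B : P2 k) (F : P2 k) :
    ev k e w (aeval ![A, B] F) = ev k (ev k e w A) (ev k e w B) F := by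
  have : (ev k e w).comp (aeval ![A, B]) = ev k (ev k e w A) (ev k e w B) := by
    apply MvPolynomial.algHom_ext
    intro i
    fin_cases i <;> simp
  exact congr($this F)

lemma cc_comp (A B : P2 k) (hA : constantCoeff A = 0) (hB : constantCoeff B = 0) (F : P2 k) :
    constantCoeff (aeval ![A, B] F) = constantCoeff F := by
  induction F using MvPolynomial.induction_on with
  | C c => simp
  | add p q hp hq => simp only [map_add, hp, hq]
  | mul_X p i hp =>
    simp only [map_mul, hp]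
    fin_cases i <;> simp [hA, hB]

lemma Indep.swap {e w : K} (h : Indep k e w) : Indep k w e := by
  intro F G hFG
  have h1 : ∀ F : P2 k, ev k w e F = ev k e w (aeval ![X 1, X 0] F) := by
    intro F; rw [ev_comp]; simp
  rw [h1, h1] at hFG
  have h2 := h hFG
  have h3 : ∀ F : P2 k, aeval ![(X 1 : P2 k), X 0] (aeval ![(X 1 : P2 k), X 0] F) = F := by
    intro F
    have : (aeval ![(X 1 : P2 k), X 0]).comp (aeval ![(X 1 : P2 k), X 0]) = AlgHom.id k _ := by
      apply MvPolynomial.algHom_ext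
      intro i
      fin_cases i <;> simp
    exact congr($this F)
  rw [← h3 F, h2, h3]

lemma Indep.shift {e w : K} (h : Indep k e w) (a b : k) :
    Indep k (e - algebraMap k K a) (w - algebraMap k K b) := by
  intro F G hFG
  have h1 : ∀ F : P2 k, ev k (e - algebraMap k K a) (w - algebraMap k K b) F
      = ev k e w (aeval ![X 0 - C a, X 1 - C b] F) := by
    intro F; rw [ev_comp]; simp
  rw [h1, h1] at hFG
  have h2 := h hFG
  have h3 : ∀ F : P2 k, aeval ![(X 0 + C a : P2 k), X 1 + C b]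
      (aeval ![(X 0 - C a : P2 k), X 1 - C b] F) = F := by
    intro F
    have : (aeval ![(X 0 + C a : P2 k), X 1 + C b]).comp
        (aeval ![(X 0 - C a : P2 k), X 1 - C b]) = AlgHom.id k _ := by
      apply MvPolynomial.algHom_ext
      intro i
      fin_cases i <;> simp
    exact congr($this F)
  rw [← h3 F, h2, h3]

/-- The substitution `x ↦ x`, `y ↦ x y`. -/
noncomputable def sg : P2 k →ₐ[k] P2 k := aeval ![X 0, X 0 * X 1]

@[simp] lemma sg_X0 : sg (X 0 : P2 k) = X 0 := by simp [sg]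
@[simp] lemma sg_X1 : sg (X 1 : P2 k) = X 0 * X 1 := by simp [sg]
@[simp] lemma sg_C (c : k) : sg (C c : P2 k) = C c := by simp [sg]

lemma ev_sg {e w : K} (he : e ≠ 0) (F : P2 k) : ev k e (w / e) (sg F) = ev k e w F := by
  rw [sg, ev_comp]
  simp [mul_div_cancel₀, he]

lemma exists_sg (F : P2 k) : ∃ (N : ℕ) (G : P2 k), X 0 ^ N * F = sg G := by
  induction F using MvPolynomial.induction_on with
  | C c => exact ⟨0, C c, by simp⟩
  | add p q hp hq =>
    obtain ⟨N, G, h⟩ := hp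
    obtain ⟨M, H, h'⟩ := hq
    refine ⟨N + M, X 0 ^ M * G + X 0 ^ N * H, ?_⟩
    simp only [map_add, map_mul, map_pow, sg_X0, ← h, ← h']
    ring
  | mul_X p i hp =>
    obtain ⟨N, G, h⟩ := hp
    fin_cases i
    · refine ⟨N, G * X 0, ?_⟩
      simp only [map_mul, sg_X0, ← h, Fin.zero_eta]
      ring
    · refine ⟨N + 1, G * X 1, ?_⟩
      simp only [map_mul, sg_X1, ← h, Fin.mk_one]
      ring

lemma Indep.div {e w : K} (h : Indep k e w) : Indep k e (w / e) := by
  rw [Indep, injective_iff_map_eq_zero]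
  intro F hF
  obtain ⟨N, G, hG⟩ := exists_sg F
  have h1 : ev k e w G = 0 := by
    rw [← ev_sg h.left_ne, ← hG, map_mul, hF, mul_zero]
  have h2 : G = 0 := h (by simpa using h1)
  rw [h2, map_zero] at hG
  exact (mul_eq_zero.mp hG).resolve_left (pow_ne_zero _ (X_ne_zero _))

lemma Indep.child {e w : K} (h : Indep k e w) (c : k) :
    Indep k e (w / e - algebraMap k K c) := by
  simpa using h.div.shift 0 c

lemma coeff_sg (F : P2 k) (d : Fin 2 →₀ ℕ) :
    coeff (d + Finsupp.single 0 (d 1)) (sg F) = coeff d F := by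
  classical
  have key : ∀ (d' : Fin 2 →₀ ℕ) (c : k),
      sg (monomial d' c : P2 k) = monomial (d' + Finsupp.single 0 (d' 1)) c := by
    intro d' c
    rw [sg, aeval_monomial, Finsupp.prod_fintype _ _ (by simp), Fin.prod_univ_two,
      monomial_eq, Finsupp.prod_fintype _ _ (by simp), Fin.prod_univ_two]
    simp [pow_add, mul_pow, mul_assoc]
  induction F using MvPolynomial.induction_on' with
  | monomial d' c =>
    rw [key, coeff_monomial, coeff_monomial]
    congr 1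
    apply propext
    constructor
    · intro h
      have h0 := congr($h 0)
      have h1 := congr($h 1)
      simp at h0 h1
      ext i
      fin_cases i
      · simp; omega
      · simpa using h1
    · rintro rfl; rfl
  | add p q hp hq => simp only [map_add, coeff_add, hp, hq]

lemma mem_pow_of_dvd_sg {F : P2 k} {n : ℕ} (h : X 0 ^ n ∣ sg F) : F ∈ m0 k ^ n := by
  rw [mem_pow_idealOfVars_iff']
  intro d hd
  rw [← coeff_sg]
  obtain ⟨H, hH⟩ := h
  rw [hH, X_pow_eq_monomial, coeff_monomial_mul', if_neg]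
  intro hle
  have := hle 0
  rw [Finsupp.degree_eq_sum, Fin.sum_univ_two] at hd
  simp at this
  omega

lemma dvd_of_mem_pow {F : P2 k} {n : ℕ} (A : P2 k) (h : F ∈ m0 k ^ n) :
    X 0 ^ n ∣ aeval ![(X 0 : P2 k), X 0 * A] F := by
  have h1 : (m0 k).map (aeval ![(X 0 : P2 k), X 0 * A] : P2 k →ₐ[k] P2 k)
      ≤ Ideal.span {X 0} := by
    rw [m0, idealOfVars, Ideal.map_span, Ideal.span_le]
    rintro _ ⟨_, ⟨i, rfl⟩, rfl⟩
    rw [SetLike.mem_coe, Ideal.mem_span_singleton]
    fin_cases i <;> simp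
  have h2 := Ideal.mem_map_of_mem (aeval ![(X 0 : P2 k), X 0 * A] : P2 k →ₐ[k] P2 k) h
  rw [Ideal.map_pow] at h2
  have h3 := Ideal.pow_right_mono h1 n h2
  rwa [Ideal.span_singleton_pow, Ideal.mem_span_singleton] at h3

variable (k) in
/-- `z` has order at least `n` in the local ring of `k[e, w]` at the origin. -/
def Ord (e w : K) (n : ℕ) (z : K) : Prop :=
  ∃ F G : P2 k, F ∈ m0 k ^ n ∧ constantCoeff G ≠ 0 ∧ z * ev k e w G = ev k e w F

namespace Ord

variable {e w : K}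

lemma mono {m n : ℕ} {z : K} (h : Ord k e w n z) (hmn : m ≤ n) : Ord k e w m z := by
  obtain ⟨F, G, hF, hG, hz⟩ := h
  exact ⟨F, G, Ideal.pow_le_pow_right hmn hF, hG, hz⟩

lemma add {n : ℕ} {y z : K} (hy : Ord k e w n y) (hz : Ord k e w n z) :
    Ord k e w n (y + z) := by
  obtain ⟨F, G, hF, hG, h⟩ := hy
  obtain ⟨F', G', hF', hG', h'⟩ := hz
  refine ⟨F * G' + F' * G, G * G', ?_, by simp [hG, hG'], ?_⟩
  · exact Ideal.add_mem _ (Ideal.mul_mem_right _ _ hF) (Ideal.mul_mem_right _ _ hF')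
  · simp only [map_add, map_mul, ← h, ← h']; ring

lemma mul {m n : ℕ} {y z : K} (hy : Ord k e w m y) (hz : Ord k e w n z) :
    Ord k e w (m + n) (y * z) := by
  obtain ⟨F, G, hF, hG, h⟩ := hy
  obtain ⟨F', G', hF', hG', h'⟩ := hz
  refine ⟨F * F', G * G', ?_, by simp [hG, hG'], ?_⟩
  · rw [pow_add]; exact Ideal.mul_mem_mul hF hF'
  · simp only [map_mul, ← h, ← h']; ring

lemma of_poly {n : ℕ} {F : P2 k} (hF : F ∈ m0 k ^ n) : Ord k e w n (ev k e w F) :=
  ⟨F, 1, hF, by simp, by simp⟩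

lemma poly (F : P2 k) : Ord k e w 0 (ev k e w F) := of_poly (by simp)

lemma zero (n : ℕ) : Ord k e w n 0 := by simpa using of_poly (e := e) (w := w) (m0 k ^ n).zero_mem

lemma const (c : k) : Ord k e w 0 (algebraMap k K c) := by simpa using poly (e := e) (w := w) (C c)

lemma one : Ord k e w 0 1 := by simpa using poly (k := k) (e := e) (w := w) 1

lemma neg {n : ℕ} {z : K} (hz : Ord k e w n z) : Ord k e w n (-z) := by
  simpa using (const (-1 : k)).mul hz

lemma sub {n : ℕ} {y z : K} (hy : Ord k e w n y) (hz : Ord k e w n z) :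
    Ord k e w n (y - z) := by
  rw [sub_eq_add_neg]; exact hy.add hz.neg

lemma left : Ord k e w 1 e := by
  simpa using of_poly (n := 1) (e := e) (w := w) (F := X 0) (by simpa using X_mem_m0 (k := k) 0)

lemma right : Ord k e w 1 w := by
  simpa using of_poly (n := 1) (e := e) (w := w) (F := X 1) (by simpa using X_mem_m0 (k := k) 1)

lemma mul0 {n : ℕ} {y z : K} (hy : Ord k e w 0 y) (hz : Ord k e w n z) :
    Ord k e w n (y * z) := by simpa using hy.mul hz

lemma mul0' {n : ℕ} {y z : K} (hy : Ord k e w n y) (hz : Ord k e w 0 z) :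
    Ord k e w n (y * z) := by simpa using hy.mul hz

lemma pow {n : ℕ} {z : K} (hz : Ord k e w n z) (m : ℕ) : Ord k e w (n * m) (z ^ m) := by
  induction m with
  | zero => simpa using one
  | succ m ih => rw [pow_succ, Nat.mul_succ]; exact ih.mul hz

lemma swap {n : ℕ} {z : K} (hz : Ord k e w n z) : Ord k w e n z := by
  obtain ⟨F, G, hF, hG, h⟩ := hz
  refine ⟨aeval ![(X 1 : P2 k), X 0] F, aeval ![(X 1 : P2 k), X 0] G, ?_, ?_, ?_⟩
  · have h1 : (m0 k).map (aeval ![(X 1 : P2 k), X 0] : P2 k →ₐ[k] P2 k) ≤ m0 k := by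
      rw [m0, idealOfVars, Ideal.map_span, Ideal.span_le]
      rintro _ ⟨_, ⟨i, rfl⟩, rfl⟩
      fin_cases i
      · simpa using X_mem_m0 (k := k) 1
      · simpa using X_mem_m0 (k := k) 0
    have h2 := Ideal.mem_map_of_mem (aeval ![(X 1 : P2 k), X 0] : P2 k →ₐ[k] P2 k) hF
    rw [Ideal.map_pow] at h2
    exact Ideal.pow_right_mono h1 n h2
  · rwa [cc_comp _ _ (by simp) (by simp)]
  · rw [ev_comp, ev_comp]; simpa using h

/-- Passing to a point of the first neighbourhood. -/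
lemma child {n : ℕ} {z : K} (hz : Ord k e w n z) (he : e ≠ 0) (c : k) :
    Ord k e (w / e - algebraMap k K c) 0 (z / e ^ n) := by
  obtain ⟨F, G, hF, hG, h⟩ := hz
  obtain ⟨H, hH⟩ := dvd_of_mem_pow (X 1 + C c) hF
  have h1 : ∀ Q : P2 k, ev k e (w / e - algebraMap k K c)
      (aeval ![(X 0 : P2 k), X 0 * (X 1 + C c)] Q) = ev k e w Q := by
    intro Q
    rw [ev_comp]
    simp [mul_div_cancel₀, he]
  refine ⟨H, aeval ![(X 0 : P2 k), X 0 * (X 1 + C c)] G, by simp, ?_, ?_⟩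
  · rwa [cc_comp _ _ (by simp) (by simp)]
  · rw [h1, div_mul_eq_mul_div, h, ← h1, hH]
    simp [he]

end Ord

variable (k) in
/-- Units of the local ring of `k[e, w]` at the origin. -/
def TU (e w : K) (z : K) : Prop :=
  ∃ F G : P2 k, constantCoeff F ≠ 0 ∧ constantCoeff G ≠ 0 ∧ z * ev k e w G = ev k e w F

namespace TU

variable {e w : K}

lemma ord {z : K} (h : TU k e w z) : Ord k e w 0 z := by
  obtain ⟨F, G, -, hG, h⟩ := h
  exact ⟨F, G, by simp, hG, h⟩

lemma ne (hi : Indep k e w) {z : K} (h : TU k e w z) : z ≠ 0 := by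
  obtain ⟨F, G, hF, -, h⟩ := h
  rintro rfl
  exact hi.ne_zero (ne_zero_of_cc hF) (by simpa using h.symm)

lemma inv (hi : Indep k e w) {z : K} (h : TU k e w z) : TU k e w z⁻¹ := by
  have h0 := h.ne hi
  obtain ⟨F, G, hF, hG, h⟩ := h
  exact ⟨G, F, hG, hF, by rw [← h]; field_simp⟩

lemma mul {y z : K} (hy : TU k e w y) (hz : TU k e w z) : TU k e w (y * z) := by
  obtain ⟨F, G, hF, hG, h⟩ := hy
  obtain ⟨F', G', hF', hG', h'⟩ := hz
  refine ⟨F * F', G * G', by simp [hF, hF'], by simp [hG, hG'], ?_⟩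
  simp only [map_mul, ← h, ← h']; ring

lemma const {c : k} (hc : c ≠ 0) : TU k e w (algebraMap k K c) :=
  ⟨C c, 1, by simpa using hc, by simp, by simp⟩

lemma one : TU k e w 1 := by simpa using const (k := k) (e := e) (w := w) one_ne_zero

lemma pow {z : K} (hz : TU k e w z) (m : ℕ) : TU k e w (z ^ m) := by
  induction m with
  | zero => simpa using one
  | succ m ih => rw [pow_succ]; exact ih.mul hz

lemma add_ord {y z : K} (hy : TU k e w y) (hz : Ord k e w 1 z) : TU k e w (y + z) := by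
  obtain ⟨F, G, hF, hG, h⟩ := hy
  obtain ⟨F', G', hF', hG', h'⟩ := hz
  rw [pow_one, mem_m0] at hF'
  refine ⟨F * G' + F' * G, G * G', by simp [hF, hG', hF'], by simp [hG, hG'], ?_⟩
  simp only [map_add, map_mul, ← h, ← h']; ring

lemma not_ord (hi : Indep k e w) {z : K} (h : TU k e w z) : ¬ Ord k e w 1 z := by
  obtain ⟨F, G, hF, hG, h⟩ := h
  rintro ⟨F', G', hF', hG', h'⟩
  rw [pow_one, mem_m0] at hF'
  have : F * G' = F' * G := hi (by simp only [map_mul, ← h, ← h']; ring)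
  have := congr(constantCoeff $this)
  simp [hF, hG', hF'] at this

lemma of_not_ord {z : K} (h0 : Ord k e w 0 z) (h1 : ¬ Ord k e w 1 z) : TU k e w z := by
  obtain ⟨F, G, -, hG, h⟩ := h0
  refine ⟨F, G, fun hF => h1 ⟨F, G, by rwa [pow_one, mem_m0], hG, h⟩, hG, h⟩

end TU

lemma Ord.exists_const {e w z : K} (hz : Ord k e w 0 z) :
    ∃ c : k, Ord k e w 1 (z - algebraMap k K c) := by
  obtain ⟨F, G, -, hG, h⟩ := hz
  refine ⟨constantCoeff F / constantCoeff G,
    F - C (constantCoeff F / constantCoeff G) * G, G, ?_, hG, ?_⟩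
  · rw [pow_one, mem_m0]; simp [hG]
  · simp only [map_sub, map_mul, ev_C, ← h]; ring

variable (k) in
/-- The local ring of `k[e, w]` at the origin, as a subring. -/
def TS (e w : K) : Subring K where
  carrier := {z | Ord k e w 0 z}
  mul_mem' := fun ha hb => Ord.mul0 ha hb
  one_mem' := Ord.one
  add_mem' := fun ha hb => Ord.add ha hb
  zero_mem' := Ord.zero 0
  neg_mem' := fun ha => Ord.neg ha

@[simp] lemma mem_TS {e w z : K} : z ∈ TS k e w ↔ Ord k e w 0 z := Iff.rfl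

lemma isUnit_TS_iff {e w : K} (hi : Indep k e w) (t : TS k e w) : IsUnit t ↔ TU k e w t := by
  constructor
  · intro ht
    apply TU.of_not_ord t.2
    intro h1
    obtain ⟨u, hu⟩ := ht.exists_right_inv
    have h2 : Ord k e w 1 ((t : K) * u) := h1.mul0' u.2
    have h3 : (t : K) * u = 1 := congr(($hu : K))
    rw [h3] at h2
    exact TU.one.not_ord hi h2
  · intro ht
    exact IsUnit.of_mul_eq_one ⟨(t : K)⁻¹, (ht.inv hi).ord⟩
      (Subtype.ext (mul_inv_cancel₀ (ht.ne hi)))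

lemma isLocalRing_TS {e w : K} (hi : Indep k e w) : IsLocalRing (TS k e w) := by
  apply IsLocalRing.of_isUnit_or_isUnit_one_sub_self
  intro t
  rw [isUnit_TS_iff hi, isUnit_TS_iff hi]
  by_cases h : Ord k e w 1 t
  · right
    have := TU.one.add_ord h.neg
    simpa [sub_eq_add_neg] using this
  · exact Or.inl (TU.of_not_ord t.2 h)

/-- The local ring of `k[e, w]` at the origin. -/
def TL {e w : K} (hi : Indep k e w) : LocalSubring K :=
  LocalSubring.mk (TS k e w) (isLocalRing := isLocalRing_TS hi)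

@[simp] lemma mem_TL {e w z : K} (hi : Indep k e w) :
    z ∈ (TL hi).toSubring ↔ Ord k e w 0 z := Iff.rfl

lemma mem_max_TL {e w : K} (hi : Indep k e w) (t : (TL hi).toSubring) :
    t ∈ maximalIdeal (TL hi).toSubring ↔ Ord k e w 1 t := by
  rw [mem_maximalIdeal, mem_nonunits_iff]
  have := isUnit_TS_iff hi t
  constructor
  · intro h
    by_contra h1
    exact h (this.mpr (TU.of_not_ord t.2 h1))
  · intro h hu
    exact (this.mp hu).not_ord hi h

lemma mem_pow_TL {e w : K} (hi : Indep k e w) (n : ℕ) (t : (TL hi).toSubring) :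
    t ∈ maximalIdeal (TL hi).toSubring ^ n ↔ Ord k e w n t := by
  constructor
  · induction n generalizing t with
    | zero => intro _; exact t.2
    | succ n ih =>
      intro h
      rw [pow_succ] at h
      refine Submodule.mul_induction_on h ?_ ?_
      · intro a ha b hb
        exact (ih a ha).mul ((mem_max_TL hi b).mp hb)
      · intro a b ha hb
        exact ha.add hb
  · rintro ⟨F, G, hF, hG, h⟩
    let φ : P2 k →+* (TL hi).toSubring :=
      (ev k e w).toRingHom.codRestrict (TL hi).toSubring (fun Q => Ord.poly Q)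
    have h1 : (m0 k).map φ ≤ maximalIdeal (TL hi).toSubring := by
      rw [Ideal.map_le_iff_le_comap]
      intro Q hQ
      rw [Ideal.mem_comap, mem_max_TL]
      exact Ord.of_poly (by simpa using hQ)
    have h2 := Ideal.mem_map_of_mem φ hF
    rw [Ideal.map_pow] at h2
    have h3 := Ideal.pow_right_mono h1 n h2
    have hu : TU k e w (ev k e w G) := ⟨G, 1, hG, by simp, by simp⟩
    have h4 : t = ⟨(ev k e w G)⁻¹, (hu.inv hi).ord⟩ * φ F := by
      apply Subtype.ext
      change (t : K) = (ev k e w G)⁻¹ * ev k e w F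
      rw [← h]
      field_simp [hu.ne hi]
    rw [h4]
    exact Ideal.mul_mem_left _ _ h3

lemma TL_swap {e w : K} (hi : Indep k e w) : TL hi = TL hi.swap := by
  apply LocalSubring.toSubring_injective
  ext z
  exact ⟨Ord.swap, Ord.swap⟩

lemma TL_congr {e w e' w' : K} (hi : Indep k e w) (hi' : Indep k e' w') (h1 : e = e')
    (h2 : w = w') : TL hi = TL hi' := by
  subst h1 h2; rfl

end Pool.Agent.Work.MP_41a257_ag
end

-- merged part: Pool.Agent.Work.MP_41a257_ag.Val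
section
/-!
The discrete valuation ring `k[e, u]` localized at `(e)`.
-/

open IsLocalRing MvPolynomial

namespace Pool.Agent.Work.MP_41a257_ag

variable {k : Type*} [Field k] {K : Type*} [Field K] [Algebra k K]

lemma nd_mul {F G : P2 k} (hF : ¬ X 0 ∣ F) (hG : ¬ X 0 ∣ G) : ¬ X 0 ∣ F * G := by
  rw [X_dvd_mul_iff]; tauto

lemma nd_of_cc {G : P2 k} (hG : constantCoeff G ≠ 0) : ¬ X 0 ∣ G := by
  rintro ⟨H, rfl⟩; simp at hG

variable (k) in
def DV (e u : K) : Subring K where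
  carrier := {z | ∃ F G : P2 k, ¬ X 0 ∣ G ∧ z * ev k e u G = ev k e u F}
  mul_mem' := by
    rintro y z ⟨F, G, hG, h⟩ ⟨F', G', hG', h'⟩
    exact ⟨F * F', G * G', nd_mul hG hG', by simp only [map_mul, ← h, ← h']; ring⟩
  one_mem' := ⟨1, 1, nd_of_cc (by simp), by simp⟩
  add_mem' := by
    rintro y z ⟨F, G, hG, h⟩ ⟨F', G', hG', h'⟩
    exact ⟨F * G' + F' * G, G * G', nd_mul hG hG', by
      simp only [map_add, map_mul, ← h, ← h']; ring⟩
  zero_mem' := ⟨0, 1, nd_of_cc (by simp), by simp⟩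
  neg_mem' := by
    rintro y ⟨F, G, hG, h⟩
    exact ⟨-F, G, hG, by simp only [map_neg, ← h]; ring⟩

lemma mem_DV {e u z : K} :
    z ∈ DV k e u ↔ ∃ F G : P2 k, ¬ X 0 ∣ G ∧ z * ev k e u G = ev k e u F := Iff.rfl

lemma DV_poly (e u : K) (F : P2 k) : ev k e u F ∈ DV k e u :=
  ⟨F, 1, nd_of_cc (by simp), by simp⟩

lemma DV_left (e u : K) : e ∈ DV k e u := by simpa using DV_poly e u (X 0 : P2 k)
lemma DV_right (e u : K) : u ∈ DV k e u := by simpa using DV_poly e u (X 1 : P2 k)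
lemma DV_const (e u : K) (c : k) : algebraMap k K c ∈ DV k e u := by
  simpa using DV_poly e u (C c : P2 k)

variable (k) in
/-- Units of `DV`. -/
def DU (e u z : K) : Prop :=
  ∃ F G : P2 k, ¬ X 0 ∣ F ∧ ¬ X 0 ∣ G ∧ z * ev k e u G = ev k e u F

namespace DU

variable {e u : K}

lemma mem {z : K} (h : DU k e u z) : z ∈ DV k e u := by
  obtain ⟨F, G, -, hG, h⟩ := h
  exact ⟨F, G, hG, h⟩

lemma ne (hi : Indep k e u) {z : K} (h : DU k e u z) : z ≠ 0 := by
  obtain ⟨F, G, hF, -, h⟩ := h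
  rintro rfl
  exact hi.ne_zero (ne_zero_of_nd hF) (by simpa using h.symm)

lemma inv (hi : Indep k e u) {z : K} (h : DU k e u z) : DU k e u z⁻¹ := by
  have h0 := h.ne hi
  obtain ⟨F, G, hF, hG, h⟩ := h
  exact ⟨G, F, hG, hF, by rw [← h]; field_simp⟩

lemma mul {y z : K} (hy : DU k e u y) (hz : DU k e u z) : DU k e u (y * z) := by
  obtain ⟨F, G, hF, hG, h⟩ := hy
  obtain ⟨F', G', hF', hG', h'⟩ := hz
  exact ⟨F * F', G * G', nd_mul hF hF', nd_mul hG hG', by
    simp only [map_mul, ← h, ← h']; ring⟩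

lemma poly {F : P2 k} (hF : ¬ X 0 ∣ F) : DU k e u (ev k e u F) :=
  ⟨F, 1, hF, nd_of_cc (by simp), by simp⟩

lemma const {c : k} (hc : c ≠ 0) : DU k e u (algebraMap k K c) := by
  simpa using poly (e := e) (u := u) (F := C c) (nd_of_cc (by simpa using hc))

lemma one : DU k e u 1 := by simpa using const (k := k) (e := e) (u := u) one_ne_zero

lemma right : DU k e u u := by
  simpa using poly (k := k) (e := e) (u := u) (F := X 1) (by rw [X_dvd_X]; simp)

lemma pow {z : K} (hz : DU k e u z) (m : ℕ) : DU k e u (z ^ m) := by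
  induction m with
  | zero => simpa using one
  | succ m ih => rw [pow_succ]; exact ih.mul hz

lemma add {y t : K} (hy : DU k e u y) (ht : t ∈ DV k e u) : DU k e u (y + e * t) := by
  obtain ⟨F, G, hF, hG, h⟩ := hy
  obtain ⟨F', G', hG', h'⟩ := ht
  refine ⟨F * G' + X 0 * (F' * G), G * G', ?_, nd_mul hG hG', ?_⟩
  · rw [dvd_add_left (dvd_mul_right _ _)]
    exact nd_mul hF hG'
  · simp only [map_add, map_mul, ← h, ← h', ev_X0]; ring

lemma not_div (hi : Indep k e u) {y : K} (hy : DU k e u y) : y / e ∉ DV k e u := by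
  obtain ⟨F, G, hF, hG, h⟩ := hy
  rintro ⟨F', G', hG', h'⟩
  have he := hi.left_ne
  have : F * G' = X 0 * (F' * G) := hi (by
    simp only [map_mul, ← h, ← h', ev_X0]; field_simp)
  exact nd_mul hF hG' ⟨_, this⟩

lemma not_div_pow (hi : Indep k e u) {y : K} (hy : DU k e u y) {m n : ℕ} (hmn : m < n) :
    y * e ^ m / e ^ n ∉ DV k e u := by
  intro h
  apply hy.not_div hi
  have he := hi.left_ne
  obtain ⟨d, rfl⟩ := Nat.exists_eq_add_of_lt hmn
  have := (DV k e u).mul_mem h ((DV k e u).pow_mem (DV_left e u) d)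
  convert this using 1
  field_simp
  ring

end DU

lemma exists_DU {e u z : K} (hi : Indep k e u) (hz : z ∈ DV k e u) (h0 : z ≠ 0) :
    ∃ (m : ℕ) (y : K), DU k e u y ∧ z = y * e ^ m := by
  obtain ⟨F, G, hG, h⟩ := hz
  have hF : F ≠ 0 := by
    rintro rfl
    exact hi.ne_zero (ne_zero_of_nd hG) (by simpa [h0] using h)
  obtain ⟨m, F', hF', rfl⟩ := WfDvdMonoid.max_power_factor' hF
    (X_prime (i := (0 : Fin 2)) (R := k)).not_isUnit
  have he := hi.left_ne
  refine ⟨m, z / e ^ m, ⟨F', G, hF', hG, ?_⟩, by field_simp⟩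
  rw [div_mul_eq_mul_div, h]
  simp [he]

lemma nd_shift {G : P2 k} (c : k) (hG : ¬ X 0 ∣ G) :
    ¬ X 0 ∣ aeval ![(X 0 : P2 k), X 1 + C c] G := by
  rintro ⟨H, hH⟩
  apply hG
  have h3 : aeval ![(X 0 : P2 k), X 1 - C c] (aeval ![(X 0 : P2 k), X 1 + C c] G) = G := by
    have : (aeval ![(X 0 : P2 k), X 1 - C c]).comp
        (aeval ![(X 0 : P2 k), X 1 + C c]) = AlgHom.id k _ := by
      apply MvPolynomial.algHom_ext
      intro i
      fin_cases i <;> simp
    exact congr($this G)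
  rw [← h3, hH]
  simp

lemma DV_shift_aux {e u z : K} (c : k) (hz : z ∈ DV k e u) :
    z ∈ DV k e (u - algebraMap k K c) := by
  obtain ⟨F, G, hG, h⟩ := hz
  refine ⟨aeval ![(X 0 : P2 k), X 1 + C c] F, _, nd_shift c hG, ?_⟩
  rw [ev_comp, ev_comp]
  simpa using h

lemma DV_shift (e u : K) (c : k) : DV k e (u - algebraMap k K c) = DV k e u := by
  ext z
  refine ⟨fun h => ?_, DV_shift_aux c⟩
  simpa using DV_shift_aux (-c) h

lemma ev_sub_DV {e w z : K} (he : e ≠ 0) (hz : z / e ∈ DV k e w) (G : P2 k) :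
    ∃ t ∈ DV k e w, ev k w z G = ev k e w (aeval ![(X 1 : P2 k), 0] G) + e * t := by
  induction G using MvPolynomial.induction_on with
  | C c => exact ⟨0, zero_mem _, by simp⟩
  | add p q hp hq =>
    obtain ⟨t, ht, h⟩ := hp
    obtain ⟨t', ht', h'⟩ := hq
    exact ⟨t + t', add_mem ht ht', by simp only [map_add, h, h']; ring⟩
  | mul_X p i hp =>
    obtain ⟨t, ht, h⟩ := hp
    fin_cases i
    · refine ⟨t * w, mul_mem ht (DV_right e w), ?_⟩
      simp only [map_mul, h, Fin.zero_eta, ev_X0, aeval_X, Matrix.cons_val_zero, ev_X1]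
      ring
    · refine ⟨(ev k e w (aeval ![(X 1 : P2 k), 0] p) + e * t) * (z / e),
        mul_mem (add_mem (DV_poly _ _ _) (mul_mem (DV_left e w) ht)) hz, ?_⟩
      simp only [map_mul, h, Fin.mk_one, ev_X1, aeval_X, Matrix.cons_val_one,
        Matrix.cons_val_fin_one, map_zero]
      field_simp
      ring

/-- If `z ∈ e DV`, the local ring of `k[w, z]` at the origin lies in `DV`. -/
lemma Ord.mem_DV' {e w z t : K} (hi : Indep k e w) (hz : z / e ∈ DV k e w)
    (ht : Ord k w z 0 t) : t ∈ DV k e w := by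
  obtain ⟨F, G, -, hG, h⟩ := ht
  obtain ⟨a, ha, h1⟩ := ev_sub_DV hi.left_ne hz F
  obtain ⟨b, hb, h2⟩ := ev_sub_DV hi.left_ne hz G
  have hu : DU k e w (ev k w z G) := by
    rw [h2]
    refine (DU.poly (nd_of_cc ?_)).add hb
    rwa [cc_comp _ _ (by simp) (by simp)]
  have : t = ev k w z F * (ev k w z G)⁻¹ := by
    rw [← h]; field_simp [hu.ne hi]
  rw [this]
  refine mul_mem ?_ (hu.inv hi).mem
  rw [h1]
  exact add_mem (DV_poly _ _ _) (mul_mem (DV_left e w) ha)

lemma Ord.mem_DV {e w t : K} (ht : Ord k e w 0 t) : t ∈ DV k e w := by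
  obtain ⟨F, G, -, hG, h⟩ := ht
  exact ⟨F, G, nd_of_cc hG, h⟩

lemma TU.du {e w t : K} (ht : TU k e w t) : DU k e w t := by
  obtain ⟨F, G, hF, hG, h⟩ := ht
  exact ⟨F, G, nd_of_cc hF, nd_of_cc hG, h⟩

lemma Ord.div_of_DV {e w z : K} (hi : Indep k e w) (hz : Ord k e w 0 z)
    (h : z / e ∈ DV k e w) : Ord k e w 0 (z / e) := by
  obtain ⟨F, G, -, hG, hz⟩ := hz
  obtain ⟨F', G', hG', h⟩ := h
  have he := hi.left_ne
  have h1 : F * G' = X 0 * (F' * G) := hi (by
    simp only [map_mul, ← h, ← hz, ev_X0]; field_simp)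
  have h2 : X 0 ∣ F := ((X_dvd_mul_iff).mp ⟨_, h1⟩).resolve_right hG'
  obtain ⟨H, rfl⟩ := h2
  refine ⟨H, G, by simp, hG, ?_⟩
  rw [div_mul_eq_mul_div, hz]
  simp [he]

lemma Ord.of_mul_pow {e w y : K} (hi : Indep k e w) (hy : y ∈ DV k e w) (N : ℕ)
    (h : Ord k e w 0 (y * e ^ N)) : Ord k e w 0 y := by
  induction N with
  | zero => simpa using h
  | succ N ih =>
    apply ih
    have he := hi.left_ne
    have h1 : y * e ^ (N + 1) / e = y * e ^ N := by field_simp; ring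
    have := h.div_of_DV hi (by
      rw [h1]; exact mul_mem hy (pow_mem (DV_left e w) N))
    rwa [h1] at this

/-- Coprimality: `y e ^ N ∈ T`, `y h ∈ T`, `h` a unit of `DV`, force `y ∈ T`. -/
lemma Ord.of_coprime {e w y h : K} (hi : Indep k e w) (N : ℕ) (hu : DU k e w h)
    (h1 : Ord k e w 0 (y * e ^ N)) (h2 : Ord k e w 0 (y * h)) : Ord k e w 0 y := by
  refine Ord.of_mul_pow hi ?_ N h1
  have := mul_mem h2.mem_DV (hu.inv hi).mem
  rwa [mul_assoc, mul_inv_cancel₀ (hu.ne hi), mul_one] at this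

lemma Ord.div_mem_DV {e w z : K} {n : ℕ} (he : e ≠ 0) (hz : Ord k e w n z) :
    z / e ^ n ∈ DV k e (w / e) := by
  simpa using (hz.child he 0).mem_DV

lemma Ord.of_div_mem_DV {e w z : K} {n : ℕ} (hi : Indep k e w) (hz : Ord k e w 0 z)
    (h : z / e ^ n ∈ DV k e (w / e)) : Ord k e w n z := by
  obtain ⟨F, G, -, hG, hz⟩ := hz
  obtain ⟨F', G', hG', h⟩ := h
  have he := hi.left_ne
  have h1 : sg F * G' = X 0 ^ n * (F' * sg G) := hi.div (by
    simp only [map_mul, map_pow, ev_sg he, ← h, ← hz, ev_X0]; field_simp)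
  have h2 : X 0 ^ n ∣ sg F :=
    (X_prime (i := (0 : Fin 2)) (R := k)).pow_dvd_of_dvd_mul_right n hG' ⟨_, h1⟩
  exact ⟨F, G, mem_pow_of_dvd_sg h2, hG, hz⟩

lemma orderValRing_TL {e w : K} (hi : Indep k e w) :
    orderValRing (TL hi) = DV k e (w / e) := by
  have he := hi.left_ne
  ext z
  constructor
  · rintro ⟨n, a, b, ha, hb, h⟩
    rw [mem_pow_TL] at ha hb
    have hb0 : (b : K) ≠ 0 := by
      intro h0; rw [h0] at hb; exact hb (Ord.zero _)
    have hbD : (b : K) ∈ DV k e (w / e) := by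
      simpa using Ord.div_mem_DV he (n := 0) b.2
    obtain ⟨m, y, hy, hby⟩ := exists_DU hi.div hbD hb0
    have hmn : m ≤ n := by
      by_contra hlt
      apply hb
      apply Ord.of_div_mem_DV hi b.2
      obtain ⟨d, rfl⟩ := Nat.exists_eq_add_of_lt (not_le.mp hlt)
      have : (b : K) / e ^ (n + 1) = y * e ^ d := by
        rw [hby]; field_simp; ring
      rw [this]
      exact mul_mem hy.mem (pow_mem (DV_left _ _) d)
    obtain ⟨d, rfl⟩ := Nat.exists_eq_add_of_le hmn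
    have hy0 := hy.ne hi.div
    have : z = (a : K) / e ^ (m + d) * e ^ d * y⁻¹ := by
      rw [← h, hby]; field_simp; ring
    rw [SetLike.mem_coe, this]
    exact mul_mem (mul_mem (ha.div_mem_DV he) (pow_mem (DV_left _ _) d)) (hy.inv hi.div).mem
  · rintro ⟨F, G, hG, h⟩
    obtain ⟨N, G', hG'⟩ := exists_sg G
    obtain ⟨M, F', hF'⟩ := exists_sg F
    have e1 : ev k e w G' = e ^ N * ev k e (w / e) G := by
      rw [← ev_sg he, ← hG']; simp
    have e2 : ev k e w F' = e ^ M * ev k e (w / e) F := by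
      rw [← ev_sg he, ← hF']; simp
    refine ⟨N + M, ⟨ev k e w (X 0 ^ N * F'), Ord.poly _⟩, ⟨ev k e w (X 0 ^ M * G'), Ord.poly _⟩,
      ?_, ?_, ?_⟩
    · rw [mem_pow_TL]
      apply Ord.of_div_mem_DV hi (Ord.poly _)
      have : ev k e w (X 0 ^ N * F') / e ^ (N + M) = ev k e (w / e) F := by
        simp only [map_mul, map_pow, ev_X0, e2]; field_simp; ring
      rw [this]
      exact DV_poly _ _ _
    · rw [mem_pow_TL]
      intro h1
      have h2 := h1.div_mem_DV he
      have : ev k e w (X 0 ^ M * G') / e ^ (N + M + 1) = ev k e (w / e) G / e := by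
        simp only [map_mul, map_pow, ev_X0, e1]; field_simp; ring
      simp only at h2
      rw [this] at h2
      exact (DU.poly hG).not_div hi.div h2
    · simp only [map_mul, map_pow, ev_X0, e1, e2, ← h]; ring

end Pool.Agent.Work.MP_41a257_ag
end

-- merged part: Pool.Agent.Work.MP_41a257_ag.Quad
section
/-!
Quadratic transforms of the local rings `TL`.
-/

open IsLocalRing MvPolynomial

namespace Pool.Agent.Work.MP_41a257_ag

variable {k : Type*} [Field k] {K : Type*} [Field K] [Algebra k K]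

/-- Membership in an ideal of a subring, for elements of the field. -/
def InI {B : Subring K} (n : Ideal B) (z : K) : Prop := ∃ h : z ∈ B, (⟨z, h⟩ : B) ∈ n

namespace InI

variable {B : Subring K} {n : Ideal B}

lemma mem {z : K} (h : InI n z) : z ∈ B := h.1

lemma add {y z : K} (hy : InI n y) (hz : InI n z) : InI n (y + z) :=
  ⟨add_mem hy.1 hz.1, n.add_mem hy.2 hz.2⟩

lemma mul_left {y z : K} (hy : y ∈ B) (hz : InI n z) : InI n (y * z) :=
  ⟨mul_mem hy hz.1, n.mul_mem_left ⟨y, hy⟩ hz.2⟩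

lemma mul_right {y z : K} (hy : InI n y) (hz : z ∈ B) : InI n (y * z) := by
  rw [mul_comm]; exact hy.mul_left hz

lemma zero : InI n 0 := ⟨zero_mem _, n.zero_mem⟩

lemma neg {z : K} (hz : InI n z) : InI n (-z) := ⟨neg_mem hz.1, n.neg_mem hz.2⟩

lemma sub {y z : K} (hy : InI n y) (hz : InI n z) : InI n (y - z) := by
  rw [sub_eq_add_neg]; exact hy.add hz.neg

lemma coe (b : B) : InI n (b : K) ↔ b ∈ n := ⟨fun h => h.2, fun h => ⟨b.2, h⟩⟩

lemma not_one (hn : n ≠ ⊤) : ¬ InI n 1 := fun h => hn ((Ideal.eq_top_iff_one n).mpr h.2)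

end InI

abbrev InM (T : LocalSubring K) (z : K) : Prop := InI (maximalIdeal T.toSubring) z

lemma InM.not_of_inv {T : LocalSubring K} {z : K} (h0 : z ≠ 0) (h : z⁻¹ ∈ T.toSubring) :
    ¬ InM T z := by
  intro hz
  have := hz.mul_left h
  rw [inv_mul_cancel₀ h0] at this
  exact InI.not_one (maximalIdeal.isMaximal _).ne_top this

lemma inv_mem_of_not_InM {T : LocalSubring K} {z : K} (hz : z ∈ T.toSubring) (h : ¬ InM T z) :
    z ≠ 0 ∧ z⁻¹ ∈ T.toSubring := by
  have hu : IsUnit (⟨z, hz⟩ : T.toSubring) := by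
    by_contra hu
    exact h ⟨hz, hu⟩
  obtain ⟨u, hu⟩ := hu.exists_right_inv
  have h3 : z * u = 1 := congr(($hu : K))
  have h0 : z ≠ 0 := left_ne_zero_of_mul_eq_one h3
  refine ⟨h0, ?_⟩
  rw [← eq_inv_of_mul_eq_one_right h3]
  exact u.2

lemma InM_TL {e w z : K} (hi : Indep k e w) : InM (TL hi) z ↔ Ord k e w 1 z :=
  ⟨fun h => (mem_max_TL hi ⟨z, h.1⟩).mp h.2,
    fun h => ⟨h.mono zero_le_one, (mem_max_TL hi ⟨z, h.mono zero_le_one⟩).mpr h⟩⟩

lemma mem_ofPrime (B : Subring K) (n : Ideal B) [n.IsPrime] (z : K) :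
    z ∈ (LocalSubring.ofPrime B n).toSubring ↔ ∃ a s : B, s ∉ n ∧ z * s = a := by
  constructor
  · intro hz
    obtain ⟨⟨a, s⟩, h⟩ := IsLocalization.surj n.primeCompl
      (⟨z, hz⟩ : (LocalSubring.ofPrime B n).toSubring)
    exact ⟨a, s, s.2, congr(($h : K))⟩
  · rintro ⟨a, s, hs, h⟩
    have hu : IsUnit (algebraMap B (LocalSubring.ofPrime B n).toSubring s) :=
      (IsLocalization.AtPrime.isUnit_to_map_iff _ n s).mpr hs
    obtain ⟨u, hu⟩ := hu.exists_right_inv
    have h3 : (s : K) * u = 1 := congr(($hu : K))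
    have : z = a * u := by rw [← h, mul_assoc, h3, mul_one]
    rw [this]
    exact mul_mem (LocalSubring.le_ofPrime B n a.2) u.2

lemma InM_ofPrime (B : Subring K) (n : Ideal B) [n.IsPrime] {z : K} (hz : z ∈ B) :
    InM (LocalSubring.ofPrime B n) z ↔ InI n z := by
  have := IsLocalization.AtPrime.to_map_mem_maximal_iff
    (LocalSubring.ofPrime B n).toSubring n ⟨z, hz⟩
  exact ⟨fun h => ⟨hz, this.mp h.2⟩, fun h => ⟨LocalSubring.le_ofPrime B n hz, this.mpr h.2⟩⟩

lemma ev_mem {B : Subring K} (hk : ∀ c : k, algebraMap k K c ∈ B) {p q : K} (hp : p ∈ B)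
    (hq : q ∈ B) (F : P2 k) : ev k p q F ∈ B := by
  induction F using MvPolynomial.induction_on with
  | C c => simpa using hk c
  | add F G hF hG => rw [map_add]; exact add_mem hF hG
  | mul_X F i hF =>
    rw [map_mul]
    fin_cases i
    · simpa using mul_mem hF hp
    · simpa using mul_mem hF hq

lemma ev_sub_InI {B : Subring K} {n : Ideal B} (hk : ∀ c : k, algebraMap k K c ∈ B) {p q : K}
    (hp : InI n p) (hq : InI n q) (F : P2 k) :
    InI n (ev k p q F - algebraMap k K (constantCoeff F)) := by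
  induction F using MvPolynomial.induction_on with
  | C c => simpa using InI.zero
  | add F G hF hG =>
    have := hF.add hG
    simp only [map_add]
    convert this using 1
    ring
  | mul_X F i hF =>
    fin_cases i
    · simpa using hp.mul_left (ev_mem hk hp.mem hq.mem F)
    · simpa using hq.mul_left (ev_mem hk hp.mem hq.mem F)

lemma dom_TL {T : LocalSubring K} (hk : ∀ c : k, algebraMap k K c ∈ T.toSubring) {e w : K}
    (he : InM T e) (hw : InM T w) {z : K} (hz : Ord k e w 0 z) :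
    z ∈ T.toSubring ∧ (Ord k e w 1 z → InM T z) := by
  have key : ∀ G : P2 k, constantCoeff G ≠ 0 →
      ev k e w G ≠ 0 ∧ (ev k e w G)⁻¹ ∈ T.toSubring := by
    intro G hG
    apply inv_mem_of_not_InM (ev_mem hk he.mem hw.mem G)
    intro h
    have h1 := h.sub (ev_sub_InI hk he hw G)
    rw [sub_sub_cancel] at h1
    refine InM.not_of_inv (by simpa using hG) ?_ h1
    rw [← map_inv₀]
    exact hk _
  constructor
  · obtain ⟨F, G, -, hG, h⟩ := hz
    obtain ⟨h0, h1⟩ := key G hG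
    have : z = ev k e w F * (ev k e w G)⁻¹ := by rw [← h]; field_simp
    rw [this]
    exact mul_mem (ev_mem hk he.mem hw.mem F) h1
  · rintro ⟨F, G, hF, hG, h⟩
    obtain ⟨h0, h1⟩ := key G hG
    have : z = ev k e w F * (ev k e w G)⁻¹ := by rw [← h]; field_simp
    rw [this]
    rw [pow_one, mem_m0] at hF
    have h2 := ev_sub_InI hk he hw F
    rw [hF, map_zero, sub_zero] at h2
    exact h2.mul_right h1

lemma ofPrime_eq_TL {B : Subring K} (n : Ideal B) [n.IsPrime]
    (hk : ∀ c : k, algebraMap k K c ∈ B) {e w : K} (hi : Indep k e w)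
    (he : InM (LocalSubring.ofPrime B n) e) (hw : InM (LocalSubring.ofPrime B n) w)
    (hB : ∀ z ∈ B, Ord k e w 0 z) : LocalSubring.ofPrime B n = TL hi := by
  have hk' : ∀ c : k, algebraMap k K c ∈ (LocalSubring.ofPrime B n).toSubring :=
    fun c => LocalSubring.le_ofPrime B n (hk c)
  apply LocalSubring.toSubring_injective
  ext z
  rw [mem_TL]
  refine ⟨fun hz => ?_, fun hz => (dom_TL hk' he hw hz).1⟩
  obtain ⟨a, s, hs, h⟩ := (mem_ofPrime B n z).mp hz
  have hu : TU k e w s := by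
    apply TU.of_not_ord (hB s s.2)
    intro h1
    have := (dom_TL hk' he hw (hB s s.2)).2 h1
    rw [InM_ofPrime B n s.2, InI.coe] at this
    exact hs this
  have : z = a * (s : K)⁻¹ := by rw [← h]; field_simp [hu.ne hi]
  rw [this]
  exact (hB a a.2).mul0 (hu.inv hi).ord

lemma exists_ofPrime_eq_TL {B : Subring K} (hk : ∀ c : k, algebraMap k K c ∈ B) {e w : K}
    (hi : Indep k e w) (he : e ∈ B) (hw : w ∈ B) (hB : ∀ z ∈ B, Ord k e w 0 z) :
    ∃ (n : Ideal B) (_ : n.IsMaximal), InI n e ∧ LocalSubring.ofPrime B n = TL hi := by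
  let n : Ideal B := (maximalIdeal (TL hi).toSubring).comap (Subring.inclusion hB)
  have hn : ∀ b : B, b ∈ n ↔ Ord k e w 1 b := fun b => by
    rw [Ideal.mem_comap, mem_max_TL]; rfl
  have hmax : n.IsMaximal := by
    rw [Ideal.isMaximal_iff]
    refine ⟨fun h => TU.one.not_ord hi ((hn 1).mp h), ?_⟩
    intro J x hJ hx hxJ
    obtain ⟨c, hc⟩ := (hB x x.2).exists_const
    have hc0 : c ≠ 0 := by
      rintro rfl
      exact hx ((hn x).mpr (by simpa using hc))
    have h1 : x - ⟨_, hk c⟩ ∈ J := hJ ((hn _).mpr hc)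
    have h2 : (⟨_, hk c⟩ : B) ∈ J := by simpa using J.sub_mem hxJ h1
    have h3 := J.mul_mem_left ⟨_, hk c⁻¹⟩ h2
    convert h3 using 1
    apply Subtype.ext
    simp [hc0]
  refine ⟨n, hmax, ⟨he, (hn _).mpr Ord.left⟩, ?_⟩
  apply ofPrime_eq_TL n hk hi _ _ hB
  · rw [InM_ofPrime B n he]; exact ⟨he, (hn _).mpr Ord.left⟩
  · rw [InM_ofPrime B n hw]; exact ⟨hw, (hn _).mpr Ord.right⟩

lemma exists_point [IsAlgClosed k] {B : Subring K} (n : Ideal B) [hn : n.IsMaximal]
    (hk : ∀ c : k, algebraMap k K c ∈ B) {p q : K} (hp : p ∈ B) (hq : q ∈ B)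
    (h : ∀ z ∈ B, ∃ F : P2 k, InI n (z - ev k p q F)) :
    ∃ a b : k, InI n (p - algebraMap k K a) ∧ InI n (q - algebraMap k K b) := by
  let φ : P2 k →+* B := (ev k p q).toRingHom.codRestrict B (ev_mem hk hp hq)
  let ψ : P2 k →+* B ⧸ n := (Ideal.Quotient.mk n).comp φ
  have hψ : Function.Surjective ψ := by
    intro y
    obtain ⟨z, rfl⟩ := Ideal.Quotient.mk_surjective y
    obtain ⟨F, hF⟩ := h z z.2
    refine ⟨F, ?_⟩
    symm
    rw [RingHom.comp_apply, Ideal.Quotient.eq]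
    exact hF.2
  let := Ideal.Quotient.field n
  have hm : (RingHom.ker ψ).IsMaximal := RingHom.ker_isMaximal_of_surjective ψ hψ
  obtain ⟨x, hx⟩ := isMaximal_iff_eq_vanishingIdeal_singleton.mp hm
  have key : ∀ i : Fin 2, InI n (ev k p q (X i - C (x i))) := by
    intro i
    have : X i - C (x i) ∈ RingHom.ker ψ := by
      rw [hx, mem_vanishingIdeal_singleton_iff]; simp
    rw [RingHom.mem_ker, RingHom.comp_apply, Ideal.Quotient.eq_zero_iff_mem] at this
    exact ⟨_, this⟩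
  exact ⟨x 0, x 1, by simpa using key 0, by simpa using key 1⟩

lemma Ord.exists_comb {e w z : K} (hi : Indep k e w) (hz : Ord k e w 1 z) :
    ∃ α β : K, Ord k e w 0 α ∧ Ord k e w 0 β ∧ z = α * e + β * w := by
  obtain ⟨F, G, hF, hG, h⟩ := hz
  rw [pow_one, m0, idealOfVars, Ideal.mem_span_range_iff_exists_fun] at hF
  obtain ⟨c, rfl⟩ := hF
  have hu : TU k e w (ev k e w G) := ⟨G, 1, hG, by simp, by simp⟩
  refine ⟨ev k e w (c 0) * (ev k e w G)⁻¹, ev k e w (c 1) * (ev k e w G)⁻¹,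
    (Ord.poly _).mul0 (hu.inv hi).ord, (Ord.poly _).mul0 (hu.inv hi).ord, ?_⟩
  have h0 := hu.ne hi
  simp only [Fin.sum_univ_two, map_add, map_mul, ev_X0, ev_X1] at h
  field_simp
  linear_combination h

lemma le_blowupChart (T : LocalSubring K) {a : K} (ha : InM T a) :
    T.toSubring ≤ blowupChart T a := by
  intro z hz
  exact Subring.subset_closure ⟨_, (ha.mul_left hz).2, rfl⟩

lemma div_mem_blowupChart (T : LocalSubring K) {a m : K} (ha : a ≠ 0) (hm : InM T m) :
    m / a ∈ blowupChart T a :=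
  Subring.subset_closure ⟨_, hm.2, by simp [ha]⟩

lemma IsQuadTransform.le {T T' : LocalSubring K} (h : IsQuadTransform T T') :
    T.toSubring ≤ T'.toSubring := by
  obtain ⟨a, ha, -, n, hn, -, rfl⟩ := h
  exact (le_blowupChart T ⟨a.2, ha⟩).trans (LocalSubring.le_ofPrime _ n)

lemma Precedes.le {T T' : LocalSubring K} (h : Precedes T T') :
    T.toSubring ≤ T'.toSubring := by
  induction h with
  | refl => exact le_rfl
  | tail _ h2 ih => exact ih.trans h2.le

lemma quad_child {e w : K} (hi : Indep k e w) (c : k) :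
    IsQuadTransform (TL hi) (TL (hi.child c)) := by
  have he := hi.left_ne
  have hem : InM (TL hi) e := (InM_TL hi).mpr Ord.left
  have hle := le_blowupChart (TL hi) hem
  have hk : ∀ c : k, algebraMap k K c ∈ blowupChart (TL hi) e := fun c => hle (Ord.const c)
  obtain ⟨n, hn, hne, h⟩ := exists_ofPrime_eq_TL (B := blowupChart (TL hi) e) hk (hi.child c)
    (hle hem.mem) (sub_mem (div_mem_blowupChart _ he ((InM_TL hi).mpr Ord.right)) (hk c)) (by
      change blowupChart (TL hi) e ≤ TS k e _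
      apply Subring.closure_le.mpr
      rintro z ⟨m, hm, h⟩
      have := ((mem_max_TL hi m).mp hm).child he c
      rw [← h] at this
      simpa [he] using this)
  refine ⟨⟨e, hem.mem⟩, hem.2, ?_, n, hn, ⟨_, hne.2, rfl⟩, h.symm⟩
  intro h0
  exact he congr(($h0 : K))

lemma quad_aux {e w a : K} (hi : Indep k e w) (ha : Ord k e w 1 a) (ha0 : a ≠ 0)
    (n : Ideal (blowupChart (TL hi) a)) [n.IsMaximal] (han : InI n a) {p q : k} (hp0 : p ≠ 0)
    (hp : InI n (e / a - algebraMap k K p)) (hq : InI n (w / a - algebraMap k K q)) :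
    LocalSubring.ofPrime _ n = TL (hi.child (q / p)) := by
  have he := hi.left_ne
  have hle := le_blowupChart (TL hi) ((InM_TL hi).mpr ha)
  have hk : ∀ c : k, algebraMap k K c ∈ blowupChart (TL hi) a := fun c => hle (Ord.const c)
  have hlp := LocalSubring.le_ofPrime _ n
  have hk' : ∀ c : k, algebraMap k K c ∈ (LocalSubring.ofPrime _ n).toSubring :=
    fun c => hlp (hk c)
  have hea := div_mem_blowupChart _ ha0 ((InM_TL hi).mpr Ord.left)
  have hwa := div_mem_blowupChart _ ha0 ((InM_TL hi).mpr Ord.right)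
  have hp' : (algebraMap k K p) ≠ 0 := by simpa using hp0
  have h1 : ¬ InM (LocalSubring.ofPrime _ n) (e / a) := by
    intro h
    have h2 := h.sub ((InM_ofPrime _ n hp.mem).mpr hp)
    rw [sub_sub_cancel] at h2
    refine InM.not_of_inv hp' ?_ h2
    rw [← map_inv₀]; exact hk' _
  obtain ⟨-, h2⟩ := inv_mem_of_not_InM (hlp hea) h1
  have hem : InM (LocalSubring.ofPrime _ n) e := by
    have := ((InM_ofPrime _ n han.mem).mpr han).mul_left (hlp hea)
    rwa [div_mul_cancel₀ _ ha0] at this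
  have hwm : InM (LocalSubring.ofPrime _ n) (w / e - algebraMap k K (q / p)) := by
    have h3 := (((InM_ofPrime _ n hq.mem).mpr hq).sub
      (((InM_ofPrime _ n hp.mem).mpr hp).mul_left (hk' (q / p)))).mul_right h2
    convert h3 using 1
    simp only [map_div₀]
    field_simp
    ring
  apply ofPrime_eq_TL n hk _ hem hwm
  have h4 : Ord k e (w / e - algebraMap k K (q / p)) 0 (a / e) := by
    simpa using ha.child he (q / p)
  have h5 : TU k e (w / e - algebraMap k K (q / p)) (a / e) := by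
    apply TU.of_not_ord h4
    intro h
    refine InM.not_of_inv (div_ne_zero ha0 he) ?_ ((dom_TL hk' hem hwm h4).2 h)
    rw [inv_div]
    exact hlp hea
  change blowupChart (TL hi) a ≤ TS k e _
  apply Subring.closure_le.mpr
  rintro z ⟨m, hm, h⟩
  have h6 := ((mem_max_TL hi m).mp hm).child he (q / p)
  have h7 := h6.mul0 (h5.inv (hi.child _)).ord
  rw [← h] at h7
  rw [SetLike.mem_coe, mem_TS]
  convert h7 using 1
  field_simp

lemma quad_cases [IsAlgClosed k] {e w : K} (hi : Indep k e w) {T' : LocalSubring K}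
    (h : IsQuadTransform (TL hi) T') :
    (∃ c : k, T' = TL (hi.child c)) ∨ T' = TL hi.swap.div := by
  obtain ⟨a, ha, ha0, n, hn, ⟨a', ha', haa⟩, rfl⟩ := h
  have ha0' : (a : K) ≠ 0 := fun h => ha0 (Subtype.ext h)
  have han : InI n (a : K) := by
    have := (InI.coe a').mpr ha'
    rwa [haa] at this
  rw [mem_max_TL] at ha
  have hle := le_blowupChart (TL hi) ((InM_TL hi).mpr ha)
  have hk : ∀ c : k, algebraMap k K c ∈ blowupChart (TL hi) a := fun c => hle (Ord.const c)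
  have hea := div_mem_blowupChart _ ha0' ((InM_TL hi).mpr Ord.left)
  have hwa := div_mem_blowupChart _ ha0' ((InM_TL hi).mpr Ord.right)
  have hmn : ∀ m : K, Ord k e w 1 m → InI n m := by
    intro m hm
    have := han.mul_left (div_mem_blowupChart _ ha0' ((InM_TL hi).mpr hm))
    rwa [div_mul_cancel₀ _ ha0'] at this
  have hgen : ∀ m : K, Ord k e w 1 m → ∃ c d : k,
      InI n (m / a - (algebraMap k K c * (e / a) + algebraMap k K d * (w / a))) := by
    intro m hm
    obtain ⟨α, β, hα, hβ, rfl⟩ := hm.exists_comb hi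
    obtain ⟨c, hc⟩ := hα.exists_const
    obtain ⟨d, hd⟩ := hβ.exists_const
    refine ⟨c, d, ?_⟩
    convert ((hmn _ hc).mul_right hea).add ((hmn _ hd).mul_right hwa) using 1
    ring
  obtain ⟨p, q, hp, hq⟩ := exists_point n hk hea hwa (by
    intro z hz
    induction hz using Subring.closure_induction with
    | mem z hz =>
      obtain ⟨m, hm, h⟩ := hz
      obtain ⟨c, d, hcd⟩ := hgen m ((mem_max_TL hi m).mp hm)
      refine ⟨C c * X 0 + C d * X 1, ?_⟩
      rw [← h, mul_div_cancel_right₀ _ ha0'] at hcd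
      simpa using hcd
    | zero => exact ⟨0, by simpa using InI.zero⟩
    | one => exact ⟨1, by simpa using InI.zero⟩
    | add y z _ _ hy hz =>
      obtain ⟨F, hF⟩ := hy
      obtain ⟨G, hG⟩ := hz
      refine ⟨F + G, ?_⟩
      convert hF.add hG using 1
      simp only [map_add]; ring
    | neg y _ hy =>
      obtain ⟨F, hF⟩ := hy
      refine ⟨-F, ?_⟩
      convert hF.neg using 1
      simp only [map_neg]; ring
    | mul y z _ hz' hy hz =>
      obtain ⟨F, hF⟩ := hy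
      obtain ⟨G, hG⟩ := hz
      refine ⟨F * G, ?_⟩
      convert (hF.mul_right hz').add (hG.mul_left (ev_mem hk hea hwa F)) using 1
      simp only [map_mul]; ring)
  by_cases hp0 : p = 0
  · right
    have hq0 : q ≠ 0 := by
      rintro rfl
      subst hp0
      obtain ⟨c, d, hcd⟩ := hgen a ha
      simp only [map_zero, sub_zero] at hp hq
      have := hcd.add ((hp.mul_left (hk c)).add (hq.mul_left (hk d)))
      rw [sub_add_cancel, div_self ha0'] at this
      exact InI.not_one hn.ne_top this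
    have key : ∀ (T : LocalSubring K) (hT : T = TL hi.swap) (n : Ideal (blowupChart T a))
        [n.IsMaximal], InI n (a : K) → InI n (w / a - algebraMap k K q) →
        InI n (e / a - algebraMap k K p) →
        LocalSubring.ofPrime _ n = TL (hi.swap.child (p / q)) := by
      rintro T rfl n _ h1 h2 h3
      exact quad_aux hi.swap ha.swap ha0' n h1 hq0 h2 h3
    rw [key _ (TL_swap hi) n han hq hp]
    exact TL_congr _ _ rfl (by simp [hp0])
  · exact Or.inl ⟨_, quad_aux hi ha ha0' n han hp0 hp hq⟩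

lemma quad_inf {e w : K} (hi : Indep k e w) : IsQuadTransform (TL hi) (TL hi.swap.div) := by
  rw [TL_swap hi, TL_congr hi.swap.div (hi.swap.child 0) rfl (by simp)]
  exact quad_child _ _

lemma not_ord_div {e w : K} (hi : Indep k e w) : ¬ Ord k e w 0 (w / e) :=
  fun h => DU.right.not_div hi h.mem_DV

lemma not_le_of_quad [IsAlgClosed k] {e w : K} (hi : Indep k e w) {T' : LocalSubring K}
    (h : IsQuadTransform (TL hi) T') : ¬ T'.toSubring ≤ (TL hi).toSubring := by
  intro hle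
  rcases quad_cases hi h with ⟨c, rfl⟩ | rfl
  · apply not_ord_div hi
    have : Ord k e w 0 (w / e - algebraMap k K c) := hle (Ord.right.mono zero_le_one)
    simpa using this.add (Ord.const c)
  · apply not_ord_div hi.swap
    have : Ord k e w 0 (e / w) := hle (Ord.right.mono zero_le_one)
    exact this.swap

end Pool.Agent.Work.MP_41a257_ag
end

-- merged part: Pool.Agent.Work.MP_41a257_ag.Wt
section
/-!
Points of the plane, weights, and clusters of the shape used in the example.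
-/

open IsLocalRing MvPolynomial

namespace Pool.Agent.Work.MP_41a257_ag

section general

variable {R : Type*} [CommRing R] {K : Type*} [Field K] [Algebra R K]

lemma le_weight_iff (I : Ideal R) (T : LocalSubring K) (n : ℕ) :
    (n : ℕ∞) ≤ weight I T ↔ transform I T ≤ maximalIdeal T.toSubring ^ n := by
  constructor
  · intro h
    by_contra hn
    rcases n with _ | n
    · exact hn (by simp)
    have : weight I T ≤ n := by
      refine iSup₂_le fun ν hν => ?_
      by_contra hlt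
      have : n + 1 ≤ ν := by
        have : ¬ ν ≤ n := fun h => hlt (by exact_mod_cast h)
        omega
      exact hn (hν.trans (Ideal.pow_le_pow_right this))
    have := h.trans this
    have : n + 1 ≤ n := by exact_mod_cast this
    omega
  · intro h
    exact le_iSup₂_of_le (f := fun (ν : ℕ) (_ : transform I T ≤ maximalIdeal T.toSubring ^ ν) =>
      (ν : ℕ∞)) n h le_rfl

lemma weight_pos_iff (I : Ideal R) (T : LocalSubring K) :
    0 < weight I T ↔ transform I T ≤ maximalIdeal T.toSubring := by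
  have := le_weight_iff I T 1
  rw [pow_one] at this
  rw [← this, Nat.cast_one, Order.one_le_iff_pos]

lemma weight_pos_of_le (I : Ideal R) {T T' : LocalSubring K} (hle : T.toSubring ≤ T'.toSubring)
    (h : 0 < weight I T') : 0 < weight I T := by
  rw [weight_pos_iff] at h ⊢
  rw [transform, Ideal.span_le] at h ⊢
  rintro t ⟨g, hg, z, hz, ht⟩
  have h1 := h (a := ⟨t, hle t.2⟩) ⟨g, hg, z, fun g' hg' => hle (hz g' hg'), ht⟩
  by_contra h2
  obtain ⟨h3, h4⟩ := inv_mem_of_not_InM t.2 (fun h => h2 h.2)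
  exact InM.not_of_inv h3 (hle h4) ⟨_, h1⟩

lemma IsPoint.of_precedes {T T' : LocalSubring K} (h : IsPoint R T) (h' : Precedes T T') :
    IsPoint R T' := by
  obtain ⟨n, hn, h⟩ := h
  exact ⟨n, hn, Relation.ReflTransGen.trans h h'⟩

variable (K) in
structure Shape (I : Ideal R) (q : Fin 6 → LocalSubring K) : Prop where
  clus : ∀ T, T ∈ cluster K I ↔ ∃ i, q i = T
  prec : ∀ i j, Precedes (q i) (q j) ↔ i ≤ j
  prox : ∀ i j, IsProximate (q i) (q j) ↔ (j.val = i.val + 1 ∨ (i = 1 ∧ j = 3))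
  wt : ∀ i, weight I (q i) = ((![2, 2, 1, 1, 1, 1] : Fin 6 → ℕ) i : ℕ)

lemma Shape.inj {I : Ideal R} {q : Fin 6 → LocalSubring K} (h : Shape K I q) :
    Function.Injective q := by
  intro i j hij
  apply le_antisymm
  · rw [← h.prec, hij]; exact Relation.ReflTransGen.refl
  · rw [← h.prec, hij]; exact Relation.ReflTransGen.refl

noncomputable def Shape.equiv {I : Ideal R} {q : Fin 6 → LocalSubring K} (h : Shape K I q) :
    Fin 6 ≃ cluster K I :=
  Equiv.ofBijective (fun i => ⟨q i, (h.clus _).mpr ⟨i, rfl⟩⟩)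
    ⟨fun _ _ hij => h.inj congr(($hij).1), fun T => by
      obtain ⟨i, hi⟩ := (h.clus T).mp T.2
      exact ⟨i, Subtype.ext hi⟩⟩

lemma Shape.equiv_apply {I : Ideal R} {q : Fin 6 → LocalSubring K} (h : Shape K I q) (i : Fin 6) :
    (h.equiv i).1 = q i := rfl

lemma Shape.equisingular {I J : Ideal R} {q q' : Fin 6 → LocalSubring K} (h : Shape K I q)
    (h' : Shape K J q') : Equisingular K I J := by
  refine ⟨h.equiv.symm.trans h'.equiv, ?_, ?_, ?_⟩
  · intro p r
    obtain ⟨i, rfl⟩ := h.equiv.surjective p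
    obtain ⟨j, rfl⟩ := h.equiv.surjective r
    simp only [Equiv.trans_apply, Equiv.symm_apply_apply, Shape.equiv_apply, h.prec, h'.prec]
  · intro p r
    obtain ⟨i, rfl⟩ := h.equiv.surjective p
    obtain ⟨j, rfl⟩ := h.equiv.surjective r
    simp only [Equiv.trans_apply, Equiv.symm_apply_apply, Shape.equiv_apply, h.prox, h'.prox]
  · intro p
    obtain ⟨i, rfl⟩ := h.equiv.surjective p
    simp only [Equiv.trans_apply, Equiv.symm_apply_apply, Shape.equiv_apply, h.wt, h'.wt]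

lemma Shape.of_equisingular {I J : Ideal R} {q : Fin 6 → LocalSubring K} (h : Shape K I q)
    (hIJ : Equisingular K I J) : ∃ q', Shape K J q' := by
  obtain ⟨e, h1, h2, h3⟩ := hIJ
  refine ⟨fun i => (e (h.equiv i)).1, ?_, ?_, ?_, ?_⟩
  · intro T
    constructor
    · intro hT
      refine ⟨h.equiv.symm (e.symm ⟨T, hT⟩), by simp⟩
    · rintro ⟨i, rfl⟩
      exact (e (h.equiv i)).2
  · intro i j
    rw [← h1, h.equiv_apply, h.equiv_apply, h.prec]
  · intro i j
    rw [← h2, h.equiv_apply, h.equiv_apply, h.prox]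
  · intro i
    rw [← h3, h.equiv_apply, h.wt]

variable {k : Type*} [Field k] [Algebra k K]

variable (k) in
/-- The weight is at least `n`, in terms of coordinates. -/
def WtGe (I : Ideal R) (e w : K) (n : ℕ) : Prop :=
  ∀ g ∈ I, ∀ z : K, (∀ g' ∈ I, Ord k e w 0 (z * algebraMap R K g')) →
    Ord k e w n (z * algebraMap R K g)

lemma le_weight_TL (I : Ideal R) {e w : K} (hi : Indep k e w) (n : ℕ) :
    (n : ℕ∞) ≤ weight I (TL hi) ↔ WtGe k I e w n := by
  rw [le_weight_iff, transform, Ideal.span_le]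
  constructor
  · intro h g hg z hz
    exact (mem_pow_TL hi n ⟨_, hz g hg⟩).mp (h ⟨g, hg, z, hz, rfl⟩)
  · rintro h t ⟨g, hg, z, hz, ht⟩
    rw [SetLike.mem_coe, mem_pow_TL, ht]
    exact h g hg z hz

lemma weight_pos_TL (I : Ideal R) {e w : K} (hi : Indep k e w) :
    0 < weight I (TL hi) ↔ WtGe k I e w 1 := by
  rw [← le_weight_TL I hi, Nat.cast_one, Order.one_le_iff_pos]

lemma weight_eq_TL (I : Ideal R) {e w : K} (hi : Indep k e w) (n : ℕ) (h1 : WtGe k I e w n)
    (h2 : ¬ WtGe k I e w (n + 1)) : weight I (TL hi) = n := by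
  rw [← le_weight_TL I hi] at h1 h2
  apply le_antisymm _ h1
  rw [not_le, Nat.cast_succ] at h2
  exact Order.le_of_lt_add_one h2

end general

section plane

variable {k : Type*} [Field k] {K : Type*} [Field K] [Algebra k K] [Algebra (P2 k) K]
  [IsScalarTower k (P2 k) K]

variable (k K) in
noncomputable abbrev xK : K := algebraMap (P2 k) K (X 0)
variable (k K) in
noncomputable abbrev yK : K := algebraMap (P2 k) K (X 1)

lemma algebraMap_eq_ev (g : P2 k) : algebraMap (P2 k) K g = ev k (xK k K) (yK k K) g := by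
  have : (IsScalarTower.toAlgHom k (P2 k) K) = ev k (xK k K) (yK k K) := by
    apply MvPolynomial.algHom_ext
    intro i
    fin_cases i <;> simp
  exact congr($this g)

variable (k K) in
lemma indep_xy [IsFractionRing (P2 k) K] : Indep k (xK k K) (yK k K) := by
  intro F G h
  rw [← algebraMap_eq_ev, ← algebraMap_eq_ev] at h
  exact IsFractionRing.injective (P2 k) K h

lemma ord_root (a b : k) (g : P2 k) :
    Ord k (xK k K - algebraMap k K a) (yK k K - algebraMap k K b) 0 (algebraMap (P2 k) K g) := by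
  have := Ord.poly (k := k) (e := xK k K - algebraMap k K a) (w := yK k K - algebraMap k K b)
    (aeval ![X 0 + C a, X 1 + C b] g)
  rw [ev_comp] at this
  rw [algebraMap_eq_ev]
  simpa using this

lemma const_mem_range (c : k) : algebraMap k K c ∈ (algebraMap (P2 k) K).range :=
  ⟨C c, by rw [algebraMap_eq_ev]; simp⟩

variable [IsFractionRing (P2 k) K]

lemma root_eq [IsAlgClosed k] (n : Ideal (algebraMap (P2 k) K).range) [n.IsMaximal] :
    ∃ a b : k, LocalSubring.ofPrime _ n = TL ((indep_xy k K).shift a b) := by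
  obtain ⟨a, b, ha, hb⟩ := exists_point n const_mem_range (p := xK k K) (q := yK k K)
    ⟨_, rfl⟩ ⟨_, rfl⟩ (by
      rintro z ⟨g, rfl⟩
      exact ⟨g, by rw [algebraMap_eq_ev, sub_self]; exact InI.zero⟩)
  refine ⟨a, b, ofPrime_eq_TL n const_mem_range _ ((InM_ofPrime _ n ha.mem).mpr ha)
    ((InM_ofPrime _ n hb.mem).mpr hb) ?_⟩
  rintro z ⟨g, rfl⟩
  exact ord_root a b g

lemma isPoint_root (a b : k) : IsPoint (P2 k) (TL ((indep_xy k K).shift a b)) := by
  obtain ⟨n, hn, -, h⟩ := exists_ofPrime_eq_TL (B := (algebraMap (P2 k) K).range)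
    const_mem_range ((indep_xy k K).shift a b) (sub_mem ⟨_, rfl⟩ (const_mem_range a))
    (sub_mem ⟨_, rfl⟩ (const_mem_range b)) (by
      rintro z ⟨g, rfl⟩
      exact ord_root a b g)
  exact ⟨n, hn, h ▸ Relation.ReflTransGen.refl⟩

lemma IsPoint.exists_TL [IsAlgClosed k] {T : LocalSubring K} (h : IsPoint (P2 k) T) :
    ∃ (e w : K) (hi : Indep k e w), T = TL hi := by
  obtain ⟨n, hn, h⟩ := h
  induction h with
  | refl =>
    obtain ⟨a, b, h⟩ := root_eq n
    exact ⟨_, _, _, h⟩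
  | tail _ h2 ih =>
    obtain ⟨e, w, hi, rfl⟩ := ih
    rcases quad_cases hi h2 with ⟨c, rfl⟩ | rfl
    · exact ⟨_, _, _, rfl⟩
    · exact ⟨_, _, _, rfl⟩

lemma Shape.root [IsAlgClosed k] {I : Ideal (P2 k)} {q : Fin 6 → LocalSubring K}
    (h : Shape K I q) : ∃ a b : k, q 0 = TL ((indep_xy k K).shift a b) := by
  obtain ⟨⟨n, hn, h1⟩, h2⟩ := (h.clus _).mpr ⟨0, rfl⟩
  obtain ⟨i, hi⟩ := (h.clus _).mp ⟨⟨n, hn, Relation.ReflTransGen.refl⟩,
    weight_pos_of_le I h1.le h2⟩
  rw [← hi, h.prec] at h1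
  have : i = 0 := le_antisymm h1 (Fin.zero_le _)
  subst this
  rw [hi]
  exact root_eq n

lemma Shape.quad [IsAlgClosed k] {I : Ideal (P2 k)} {q : Fin 6 → LocalSubring K}
    (h : Shape K I q) (i j : Fin 6) (hij : j.val = i.val + 1) :
    IsQuadTransform (q i) (q j) := by
  have h1 : Precedes (q i) (q j) := (h.prec i j).mpr (by rw [Fin.le_def]; omega)
  obtain ⟨hp, -⟩ := (h.clus _).mpr ⟨i, rfl⟩
  obtain ⟨-, hw⟩ := (h.clus _).mpr ⟨j, rfl⟩
  rcases Relation.ReflTransGen.cases_tail h1 with h2 | ⟨T, h2, h3⟩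
  · have := h.inj h2
    omega
  · have hT := hp.of_precedes h2
    obtain ⟨l, rfl⟩ := (h.clus _).mp ⟨hT, weight_pos_of_le I h3.le hw⟩
    have h4 := (h.prec _ _).mp h2
    have h5 := (h.prec _ _).mp (Relation.ReflTransGen.single h3)
    rw [Fin.le_def] at h4 h5
    by_cases hl : l = j
    · subst hl
      obtain ⟨e, w, hi, h6⟩ := hT.exists_TL
      rw [h6] at h3
      exact absurd le_rfl (not_le_of_quad hi h3)
    · have : l = i := by
        have : l.val ≠ j.val := fun h => hl (Fin.ext h)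
        apply Fin.ext
        omega
      exact this ▸ h3

end plane

end Pool.Agent.Work.MP_41a257_ag
end

-- merged part: Pool.Agent.Work.MP_41a257_ag.Chain
section
/-!
The chain of six points and its coordinates.
-/

open IsLocalRing MvPolynomial

namespace Pool.Agent.Work.MP_41a257_ag

section sub

variable {R : Type*} [CommRing R] {K : Type*} [Field K] [Algebra R K]
variable {k : Type*} [Field k] [Algebra k K]

variable (k) in
def SubO (I : Ideal R) (μ e w : K) (n : ℕ) : Prop :=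
  ∀ g ∈ I, Ord k e w n (μ⁻¹ * algebraMap R K g)

variable {I : Ideal R} {μ e w : K} {n : ℕ}

lemma SubO.of_wtGe (h : SubO k I μ e w 0) (hw : WtGe k I e w n) : SubO k I μ e w n :=
  fun g hg => hw g hg _ h

lemma SubO.swap (h : SubO k I μ e w n) : SubO k I μ w e n := fun g hg => (h g hg).swap

lemma SubO.child (h : SubO k I μ e w n) (he : e ≠ 0) (c : k) :
    SubO k I (μ * e ^ n) e (w / e - algebraMap k K c) 0 := by
  intro g hg
  convert (h g hg).child he c using 1
  rw [mul_inv]; ring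

lemma SubO.inf (h : SubO k I μ e w n) (hw : w ≠ 0) : SubO k I (μ * w ^ n) w (e / w) 0 := by
  simpa using h.swap.child hw 0

lemma SubO.not_pos (h : SubO k I μ e w 0) (hi : Indep k e w) {g : R} (hg : g ∈ I)
    (hu : TU k e w (μ⁻¹ * algebraMap R K g)) : ¬ 0 < weight I (TL hi) := by
  rw [weight_pos_TL]
  exact fun hw => hu.not_ord hi (h.of_wtGe hw g hg)

lemma SubO.not_pos_child (h : SubO k I μ e w n) (hi : Indep k e w) {g : R} (hg : g ∈ I) {c : k}
    (hu : TU k e (w / e - algebraMap k K c) (μ⁻¹ * algebraMap R K g / e ^ n)) :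
    ¬ 0 < weight I (TL (hi.child c)) := by
  refine (h.child hi.left_ne c).not_pos _ hg ?_
  convert hu using 1
  rw [mul_inv]; ring

lemma SubO.not_pos_inf (h : SubO k I μ e w n) (hi : Indep k e w) {g : R} (hg : g ∈ I)
    (hu : TU k w (e / w) (μ⁻¹ * algebraMap R K g / w ^ n)) :
    ¬ 0 < weight I (TL hi.swap.div) := by
  refine (h.inf hi.right_ne).not_pos _ hg ?_
  convert hu using 1
  rw [mul_inv]; ring

lemma SubO.weight_eq (h : SubO k I μ e w n) (hi : Indep k e w) (hμ : μ ≠ 0)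
    (hc : ∀ y : K, (∀ g ∈ I, Ord k e w 0 (y * (μ⁻¹ * algebraMap R K g))) → Ord k e w 0 y)
    {g : R} (hg : g ∈ I) {c : k}
    (hu : TU k e (w / e - algebraMap k K c) (μ⁻¹ * algebraMap R K g / e ^ n)) :
    weight I (TL hi) = n := by
  have he := hi.left_ne
  apply weight_eq_TL
  · intro g hg z hz
    have h1 := hc (z * μ) (fun g' hg' => by
      convert hz g' hg' using 1
      field_simp)
    convert h1.mul0 (h g hg) using 1
    field_simp
  · intro hw
    have h0 : SubO k I μ e w 0 := fun g hg => (h g hg).mono (Nat.zero_le _)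
    have h1 := ((h0.of_wtGe hw) g hg).child he c
    apply hu.not_ord (hi.child c)
    convert h1.mul0 Ord.left using 1
    field_simp
    ring

lemma SubO.span {S : Set R} (hR : ∀ r : R, Ord k e w 0 (algebraMap R K r))
    (h : ∀ g ∈ S, Ord k e w n (μ⁻¹ * algebraMap R K g)) : SubO k (Ideal.span S) μ e w n := by
  intro g hg
  induction hg using Submodule.span_induction with
  | mem g hg => exact h g hg
  | zero => simpa using Ord.zero n
  | add a b _ _ ha hb => rw [map_add, mul_add]; exact ha.add hb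
  | smul a b _ hb =>
    rw [smul_eq_mul, map_mul, mul_left_comm]
    exact (hR a).mul0 hb

lemma TU.of_poly {z : K} (P : P2 k) (hP : constantCoeff P ≠ 0) (h : z = ev k e w P) :
    TU k e w z := ⟨P, 1, hP, by simp, by simp [h]⟩

lemma Ord.of_poly1 {z : K} (P : P2 k) (hP : constantCoeff P = 0) (h : z = ev k e w P) :
    Ord k e w 1 z := h ▸ Ord.of_poly (by rwa [pow_one, mem_m0])

lemma Ord.of_poly0 {z : K} (P : P2 k) (h : z = ev k e w P) : Ord k e w 0 z := h ▸ Ord.poly P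

lemma DU.of_poly {z : K} {c : k} (hc : c ≠ 0) (m : ℕ) (P : P2 k)
    (h : z = algebraMap k K c * w ^ m + e * ev k e w P) : DU k e w z :=
  h ▸ ((DU.const hc).mul (DU.right.pow m)).add (DV_poly _ _ _)

lemma eq_child (he : e ≠ 0) (c : K) : w = e * (w / e - c + c) := by
  field_simp; ring

lemma eq_inf (hw : w ≠ 0) : e = w * (e / w) := by field_simp

end sub

/-- Parameters of a chain. -/
structure Par (k : Type*) where
  a : k
  b : k
  c1 : k
  c2 : k
  c3 : k
  c4 : k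

namespace Par

variable {k : Type*} [Field k] (K : Type*) [Field K] [Algebra k K] [Algebra (P2 k) K] (p : Par k)

noncomputable def X : K := xK k K - algebraMap k K p.a
noncomputable def Y : K := yK k K - algebraMap k K p.b
noncomputable def Y1 : K := p.Y K / p.X K - algebraMap k K p.c1
noncomputable def s : K := p.Y1 K / p.X K - algebraMap k K p.c2
noncomputable def Z : K := p.X K / p.s K
noncomputable def U : K := p.Z K / p.s K - algebraMap k K p.c3
noncomputable def U1 : K := p.U K / p.s K - algebraMap k K p.c4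

def c : k := -p.c3⁻¹
def l : k := p.c4 / p.c3 ^ 2

noncomputable def Xp : P2 k := MvPolynomial.X 0 - C p.a
noncomputable def yp : P2 k := MvPolynomial.X 1 - C p.b - C p.c1 * p.Xp - C p.c2 * p.Xp ^ 2
noncomputable def f : P2 k := p.yp ^ 2 + C p.l * p.Xp ^ 3 * p.yp + C p.c * p.Xp ^ 5
noncomputable def gen : Ideal (P2 k) := Ideal.span {p.f, p.Xp ^ 6, p.Xp ^ 4 * p.yp}

lemma f_mem : p.f ∈ p.gen := Ideal.subset_span (by simp)
lemma g_mem : p.Xp ^ 6 ∈ p.gen := Ideal.subset_span (by simp)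
lemma h_mem : p.Xp ^ 4 * p.yp ∈ p.gen := Ideal.subset_span (by simp)

variable [IsScalarTower k (P2 k) K] [IsFractionRing (P2 k) K]

lemma i1 : Indep k (p.X K) (p.Y K) := (indep_xy k K).shift p.a p.b
lemma i2 : Indep k (p.X K) (p.Y1 K) := (p.i1 K).child p.c1
lemma i3 : Indep k (p.X K) (p.s K) := (p.i2 K).child p.c2
lemma i4 : Indep k (p.s K) (p.Z K) := (p.i3 K).swap.div
lemma i5 : Indep k (p.s K) (p.U K) := (p.i4 K).child p.c3
lemma i6 : Indep k (p.s K) (p.U1 K) := (p.i5 K).child p.c4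

lemma X_ne : p.X K ≠ 0 := (p.i1 K).left_ne
lemma s_ne : p.s K ≠ 0 := (p.i4 K).left_ne

lemma Y_eq : p.Y K = p.X K * (p.Y1 K + algebraMap k K p.c1) := eq_child (p.X_ne K) _
lemma Y1_eq : p.Y1 K = p.X K * (p.s K + algebraMap k K p.c2) := eq_child (p.X_ne K) _
lemma X_eq : p.X K = p.s K * p.Z K := eq_inf (p.s_ne K)
lemma Z_eq : p.Z K = p.s K * (p.U K + algebraMap k K p.c3) := eq_child (p.s_ne K) _
lemma U_eq : p.U K = p.s K * (p.U1 K + algebraMap k K p.c4) := eq_child (p.s_ne K) _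

omit [IsFractionRing (P2 k) K] in
lemma A_C (c : k) : algebraMap (P2 k) K (C c) = algebraMap k K c := by
  rw [algebraMap_eq_ev]; simp

omit [IsFractionRing (P2 k) K] in
lemma A_Xp : algebraMap (P2 k) K p.Xp = p.X K := by
  simp [Xp, X, A_C]

omit [IsFractionRing (P2 k) K] in
lemma A_yp : algebraMap (P2 k) K p.yp =
    p.Y K - algebraMap k K p.c1 * p.X K - algebraMap k K p.c2 * p.X K ^ 2 := by
  simp [yp, Y, A_C, A_Xp]

lemma A_yp2 : algebraMap (P2 k) K p.yp = p.X K * (p.Y1 K - algebraMap k K p.c2 * p.X K) := by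
  rw [A_yp, p.Y_eq K]; ring

lemma A_yp3 : algebraMap (P2 k) K p.yp = p.X K ^ 2 * p.s K := by
  rw [A_yp2, p.Y1_eq K]; ring

omit [IsFractionRing (P2 k) K] in
lemma A_f : algebraMap (P2 k) K p.f = algebraMap (P2 k) K p.yp ^ 2 +
    algebraMap k K p.l * p.X K ^ 3 * algebraMap (P2 k) K p.yp +
      algebraMap k K p.c * p.X K ^ 5 := by
  simp [f, A_C, A_Xp]

/-- The six points. -/
noncomputable def q : Fin 6 → LocalSubring K :=
  ![TL (p.i1 K), TL (p.i2 K), TL (p.i3 K), TL (p.i4 K), TL (p.i5 K), TL (p.i6 K)]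

omit [IsFractionRing (P2 k) K] in
lemma r1 (r : P2 k) : Ord k (p.X K) (p.Y K) 0 (algebraMap (P2 k) K r) := ord_root p.a p.b r
lemma r2 (r : P2 k) : Ord k (p.X K) (p.Y1 K) 0 (algebraMap (P2 k) K r) :=
  (quad_child (p.i1 K) p.c1).le (p.r1 K r)
lemma r3 (r : P2 k) : Ord k (p.X K) (p.s K) 0 (algebraMap (P2 k) K r) :=
  (quad_child (p.i2 K) p.c2).le (p.r2 K r)
lemma r4 (r : P2 k) : Ord k (p.s K) (p.Z K) 0 (algebraMap (P2 k) K r) :=
  (quad_inf (p.i3 K)).le (p.r3 K r)
lemma r5 (r : P2 k) : Ord k (p.s K) (p.U K) 0 (algebraMap (P2 k) K r) :=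
  (quad_child (p.i4 K) p.c3).le (p.r4 K r)
lemma r6 (r : P2 k) : Ord k (p.s K) (p.U1 K) 0 (algebraMap (P2 k) K r) :=
  (quad_child (p.i5 K) p.c4).le (p.r5 K r)

lemma V1 : orderValRing (TL (p.i1 K)) = DV k (p.X K) (p.Y1 K) := by
  rw [orderValRing_TL, Y1, DV_shift]
lemma V2 : orderValRing (TL (p.i2 K)) = DV k (p.X K) (p.s K) := by
  rw [orderValRing_TL, s, DV_shift]
lemma V3 : orderValRing (TL (p.i3 K)) = DV k (p.s K) (p.Z K) := by
  rw [TL_swap, orderValRing_TL, Z]
lemma V4 : orderValRing (TL (p.i4 K)) = DV k (p.s K) (p.U K) := by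
  rw [orderValRing_TL, U, DV_shift]
lemma V5 : orderValRing (TL (p.i5 K)) = DV k (p.s K) (p.U1 K) := by
  rw [orderValRing_TL, U1, DV_shift]

/-- The valuation ideal of the last point. -/
noncomputable def J : Ideal (P2 k) where
  carrier := {g | algebraMap (P2 k) K g / p.s K ^ 12 ∈ DV k (p.s K) (p.U1 K / p.s K)}
  add_mem' := by
    intro a b ha hb
    simp only [Set.mem_ofPred_eq, map_add, add_div] at *
    exact add_mem ha hb
  zero_mem' := by simp
  smul_mem' := by
    intro r a ha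
    simp only [Set.mem_ofPred_eq, smul_eq_mul, map_mul, mul_div_assoc] at *
    refine mul_mem ?_ ha
    simpa using (p.r6 K r).div_mem_DV (p.s_ne K)

lemma mem_J (g : P2 k) : g ∈ p.J K ↔
    algebraMap (P2 k) K g / p.s K ^ 12 ∈ DV k (p.s K) (p.U1 K / p.s K) := Iff.rfl

lemma le_J {I : Ideal (P2 k)}
    (h : SubO k I (p.X K ^ 4 * p.s K ^ 3) (p.s K) (p.U1 K) 1) : I ≤ p.J K := by
  intro g hg
  have hs := p.s_ne K
  have hX := p.X_ne K
  have h1 := (h g hg).div_mem_DV hs
  have h2 : p.U K + algebraMap k K p.c3 ∈ DV k (p.s K) (p.U1 K / p.s K) := by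
    have : Ord k (p.s K) (p.U1 K) 0 (p.U K + algebraMap k K p.c3) :=
      Ord.of_poly0 (MvPolynomial.X 0 * (MvPolynomial.X 1 + C p.c4) + C p.c3)
        (by rw [p.U_eq K]; simp)
    simpa using this.div_mem_DV hs
  rw [mem_J]
  convert mul_mem h1 (pow_mem h2 4) using 1
  have hX' : p.X K = p.s K ^ 2 * (p.U K + algebraMap k K p.c3) := by
    rw [p.X_eq K, p.Z_eq K]; ring
  have h3 : p.U K + algebraMap k K p.c3 ≠ 0 := by
    intro h0; rw [h0, mul_zero] at hX'; exact hX hX'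
  rw [hX']
  field_simp

end Par

end Pool.Agent.Work.MP_41a257_ag
end

-- merged part: Pool.Agent.Work.MP_41a257_ag.Upper
section
/-!
Every ideal whose cluster has the given shape lies in a valuation ideal `J p`.
-/

open IsLocalRing MvPolynomial

namespace Pool.Agent.Work.MP_41a257_ag

variable {k : Type*} [Field k] {K : Type*} [Field K] [Algebra k K] [Algebra (P2 k) K]

lemma Shape.wtGe {I : Ideal (P2 k)} {q : Fin 6 → LocalSubring K} (h : Shape K I q) (i : Fin 6)
    {e w : K} {hi : Indep k e w} (hq : q i = TL hi) (n : ℕ)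
    (hn : n ≤ (![2, 2, 1, 1, 1, 1] : Fin 6 → ℕ) i) : WtGe k I e w n := by
  rw [← le_weight_TL I hi, ← hq, h.wt]
  exact_mod_cast hn

omit [Algebra k K] in
lemma Shape.sub_iff {I : Ideal (P2 k)} {q : Fin 6 → LocalSubring K} (h : Shape K I q)
    {i j : Fin 6} (hij : i < j) :
    ((q j).toSubring : Set K) ⊆ orderValRing (q i) ↔ (j.val = i.val + 1 ∨ (i = 1 ∧ j = 3)) := by
  rw [← h.prox, IsProximate]
  exact ⟨fun h' => ⟨(h.prec i j).mpr hij.le, fun h2 => hij.ne (h.inj h2), h'⟩, fun h' => h'.2.2⟩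

omit [Algebra (P2 k) K] in
lemma TL_inf_subset {e w : K} (hi : Indep k e w) :
    ((TL hi.swap.div).toSubring : Set K) ⊆ DV k e w := by
  intro t ht
  refine Ord.mem_DV' hi ?_ ht
  have : e / w / e = w⁻¹ := by field_simp [hi.left_ne]
  rw [this]
  exact (DU.right.inv hi).mem

omit [Algebra (P2 k) K] in
lemma TL_child_not_subset {e w : K} (hi : Indep k e w) (c : k) :
    ¬ ((TL (hi.child c)).toSubring : Set K) ⊆ DV k e w := by
  intro h
  have h1 : w / e - algebraMap k K c ∈ DV k e w := h (Ord.right.mono zero_le_one)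
  apply DU.right.not_div hi
  simpa using add_mem h1 (DV_const e w c)

variable [IsScalarTower k (P2 k) K] [IsFractionRing (P2 k) K]

theorem upper [IsAlgClosed k] {I : Ideal (P2 k)} {q : Fin 6 → LocalSubring K} (h : Shape K I q)
    (hv : ∀ p : Par k, ¬ SubO k I (p.Y K ^ 2) (p.Y K) (p.X K / p.Y K) 1) :
    ∃ p : Par k, p.c3 ≠ 0 ∧ I ≤ p.J K := by
  obtain ⟨a, b, h0⟩ := h.root
  let p0 : Par k := ⟨a, b, 0, 0, 0, 0⟩
  replace h0 : q 0 = TL (p0.i1 K) := h0
  have S1 : SubO k I 1 (p0.X K) (p0.Y K) 2 :=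
    SubO.of_wtGe (fun g _ => by simpa using p0.r1 K g) (h.wtGe 0 h0 2 (by simp))
  rcases quad_cases (p0.i1 K) (h0 ▸ h.quad 0 1 rfl) with ⟨c1, h1⟩ | h1
  swap
  · exfalso
    apply hv p0
    have := (S1.inf (p0.i1 K).right_ne).of_wtGe (h.wtGe 1 h1 1 (by simp))
    simpa using this
  let p1 : Par k := ⟨a, b, c1, 0, 0, 0⟩
  replace h0 : q 0 = TL (p1.i1 K) := h0
  replace h1 : q 1 = TL (p1.i2 K) := h1
  rcases quad_cases (p1.i2 K) (h1 ▸ h.quad 1 2 rfl) with ⟨c2, h2⟩ | h2
  swap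
  · exfalso
    have := (h.sub_iff (i := 0) (j := 2) (by decide)).mp (by
      rw [h0, h2, p1.V1 K]; exact TL_inf_subset (p1.i2 K))
    simp at this
  let p2 : Par k := ⟨a, b, c1, c2, 0, 0⟩
  replace h1 : q 1 = TL (p2.i2 K) := h1
  replace h2 : q 2 = TL (p2.i3 K) := h2
  rcases quad_cases (p2.i3 K) (h2 ▸ h.quad 2 3 rfl) with ⟨c, h3⟩ | h3
  · exfalso
    have := (h.sub_iff (i := 1) (j := 3) (by decide)).mpr (by simp)
    rw [h1, h3, p2.V2 K] at this
    exact TL_child_not_subset (p2.i3 K) _ this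
  replace h3 : q 3 = TL (p2.i4 K) := h3
  rcases quad_cases (p2.i4 K) (h3 ▸ h.quad 3 4 rfl) with ⟨c3, h4⟩ | h4
  swap
  · exfalso
    have := (h.sub_iff (i := 2) (j := 4) (by decide)).mp (by
      rw [h2, h4, p2.V3 K]; exact TL_inf_subset (p2.i4 K))
    simp at this
  let p3 : Par k := ⟨a, b, c1, c2, c3, 0⟩
  replace h1 : q 1 = TL (p3.i2 K) := h1
  replace h3 : q 3 = TL (p3.i4 K) := h3
  replace h4 : q 4 = TL (p3.i5 K) := h4
  have hc3 : c3 ≠ 0 := by
    intro hc
    have := (h.sub_iff (i := 1) (j := 4) (by decide)).mp (by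
      rw [h1, h4, p3.V2 K]
      intro t ht
      refine Ord.mem_DV' (p3.i3 K) ?_ ht
      have : p3.U K / p3.X K = (p3.s K)⁻¹ ^ 2 := by
        have h5 : p3.c3 = 0 := hc
        rw [Par.U, Par.Z, h5]
        field_simp [p3.X_ne K]
        simp
      rw [this]
      exact ((DU.right.inv (p3.i3 K)).pow 2).mem)
    simp at this
  rcases quad_cases (p3.i5 K) (h4 ▸ h.quad 4 5 rfl) with ⟨c4, h5⟩ | h5
  swap
  · exfalso
    have := (h.sub_iff (i := 3) (j := 5) (by decide)).mp (by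
      rw [h3, h5, p3.V4 K]; exact TL_inf_subset (p3.i5 K))
    simp at this
  let p : Par k := ⟨a, b, c1, c2, c3, c4⟩
  replace h1 : q 1 = TL (p.i2 K) := h1
  replace h2 : q 2 = TL (p.i3 K) := h2
  replace h3 : q 3 = TL (p.i4 K) := h3
  replace h4 : q 4 = TL (p.i5 K) := h4
  replace h5 : q 5 = TL (p.i6 K) := h5
  replace S1 : SubO k I 1 (p.X K) (p.Y K) 2 := S1
  have S2 : SubO k I (1 * p.X K ^ 2) (p.X K) (p.Y1 K) 2 :=
    (S1.child (p.X_ne K) c1).of_wtGe (h.wtGe 1 h1 2 (by simp))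
  have S3 : SubO k I (1 * p.X K ^ 2 * p.X K ^ 2) (p.X K) (p.s K) 1 :=
    (S2.child (p.X_ne K) c2).of_wtGe (h.wtGe 2 h2 1 (by simp))
  have S4 : SubO k I (1 * p.X K ^ 2 * p.X K ^ 2 * p.s K ^ 1) (p.s K) (p.Z K) 1 :=
    (S3.inf (p.s_ne K)).of_wtGe (h.wtGe 3 h3 1 (by simp))
  have S5 : SubO k I (1 * p.X K ^ 2 * p.X K ^ 2 * p.s K ^ 1 * p.s K ^ 1) (p.s K) (p.U K) 1 :=
    (S4.child (p.s_ne K) c3).of_wtGe (h.wtGe 4 h4 1 (by simp))
  have S6 : SubO k I (1 * p.X K ^ 2 * p.X K ^ 2 * p.s K ^ 1 * p.s K ^ 1 * p.s K ^ 1)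
      (p.s K) (p.U1 K) 1 :=
    (S5.child (p.s_ne K) c4).of_wtGe (h.wtGe 5 h5 1 (by simp))
  refine ⟨p, hc3, p.le_J K ?_⟩
  convert S6 using 1
  ring

end Pool.Agent.Work.MP_41a257_ag
end

-- merged part: Pool.Agent.Work.MP_41a257_ag.Lower
section
/-!
The transforms of the ideal `gen p` along the chain.
-/

open IsLocalRing MvPolynomial

namespace Pool.Agent.Work.MP_41a257_ag

namespace Par

variable {k : Type*} [Field k] (K : Type*) [Field K] [Algebra k K] [Algebra (P2 k) K] (p : Par k)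

lemma c_mul (h3 : p.c3 ≠ 0) : p.c * p.c3 = -1 := by simp [c, h3]
lemma c_ne (h3 : p.c3 ≠ 0) : p.c ≠ 0 := by simp [c, h3]
lemma l_mul (h3 : p.c3 ≠ 0) : p.l * p.c3 + p.c * p.c4 = 0 := by
  simp only [c, l]; field_simp; ring

omit [Algebra (P2 k) K] in
lemma c_mulK (h3 : p.c3 ≠ 0) : algebraMap k K p.c * algebraMap k K p.c3 = -1 := by
  rw [← map_mul, p.c_mul h3]; simp
omit [Algebra (P2 k) K] in
lemma l_mulK (h3 : p.c3 ≠ 0) : algebraMap k K p.l * algebraMap k K p.c3 +
    algebraMap k K p.c * algebraMap k K p.c4 = 0 := by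
  rw [← map_mul, ← map_mul, ← map_add, p.l_mul h3]; simp

variable [IsScalarTower k (P2 k) K] [IsFractionRing (P2 k) K]

lemma f2 : (p.X K ^ 2)⁻¹ * algebraMap (P2 k) K p.f =
    (p.Y1 K - algebraMap k K p.c2 * p.X K) ^ 2 +
      algebraMap k K p.l * p.X K ^ 2 * (p.Y1 K - algebraMap k K p.c2 * p.X K) +
      algebraMap k K p.c * p.X K ^ 3 := by
  rw [A_f, A_yp2]; field_simp [p.X_ne K]

lemma f3 : (p.X K ^ 4)⁻¹ * algebraMap (P2 k) K p.f =
    p.s K ^ 2 + algebraMap k K p.l * p.X K * p.s K + algebraMap k K p.c * p.X K := by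
  rw [A_f, A_yp3]; field_simp [p.X_ne K]

lemma f4 : (p.X K ^ 4 * p.s K)⁻¹ * algebraMap (P2 k) K p.f =
    p.s K + algebraMap k K p.l * p.s K * p.Z K + algebraMap k K p.c * p.Z K := by
  rw [mul_inv, mul_right_comm, f3, p.X_eq K]; field_simp [p.s_ne K]

lemma f5 (h3 : p.c3 ≠ 0) : (p.X K ^ 4 * p.s K ^ 2)⁻¹ * algebraMap (P2 k) K p.f =
    algebraMap k K p.l * p.s K * (p.U K + algebraMap k K p.c3) + algebraMap k K p.c * p.U K := by
  rw [pow_two, ← mul_assoc, mul_inv, mul_right_comm, f4, p.Z_eq K]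
  field_simp [p.s_ne K]
  linear_combination p.c_mulK K h3

lemma f6 (h3 : p.c3 ≠ 0) : (p.X K ^ 4 * p.s K ^ 3)⁻¹ * algebraMap (P2 k) K p.f =
    algebraMap k K p.l * p.s K * (p.U1 K + algebraMap k K p.c4) +
      algebraMap k K p.c * p.U1 K := by
  rw [pow_succ (p.s K) 2, ← mul_assoc, mul_inv, mul_right_comm, p.f5 K h3, p.U_eq K]
  field_simp [p.s_ne K]
  linear_combination p.l_mulK K h3

lemma g2 : (p.X K ^ 2)⁻¹ * algebraMap (P2 k) K (p.Xp ^ 6) = p.X K ^ 4 := by
  rw [map_pow, A_Xp]; field_simp [p.X_ne K]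
lemma g3 : (p.X K ^ 4)⁻¹ * algebraMap (P2 k) K (p.Xp ^ 6) = p.X K ^ 2 := by
  rw [map_pow, A_Xp]; field_simp [p.X_ne K]
lemma g4 : (p.X K ^ 4 * p.s K)⁻¹ * algebraMap (P2 k) K (p.Xp ^ 6) = p.s K * p.Z K ^ 2 := by
  rw [mul_inv, mul_right_comm, g3, p.X_eq K]; field_simp [p.s_ne K]
lemma g5 : (p.X K ^ 4 * p.s K ^ 2)⁻¹ * algebraMap (P2 k) K (p.Xp ^ 6) =
    p.s K ^ 2 * (p.U K + algebraMap k K p.c3) ^ 2 := by
  rw [pow_two, ← mul_assoc, mul_inv, mul_right_comm, g4, p.Z_eq K]; field_simp [p.s_ne K]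
lemma g6 : (p.X K ^ 4 * p.s K ^ 3)⁻¹ * algebraMap (P2 k) K (p.Xp ^ 6) =
    p.s K * (p.s K * (p.U1 K + algebraMap k K p.c4) + algebraMap k K p.c3) ^ 2 := by
  rw [pow_succ (p.s K) 2, ← mul_assoc, mul_inv, mul_right_comm, g5, p.U_eq K]
  field_simp [p.s_ne K]

lemma h_eq (μ : K) : μ⁻¹ * algebraMap (P2 k) K (p.Xp ^ 4 * p.yp) =
    p.s K * (μ⁻¹ * algebraMap (P2 k) K (p.Xp ^ 6)) := by
  rw [map_mul, map_pow, map_pow, A_Xp, A_yp3]; ring

omit [IsFractionRing (P2 k) K] in
lemma S1 : SubO k p.gen 1 (p.X K) (p.Y K) 2 := by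
  have hy : Ord k (p.X K) (p.Y K) 1 (algebraMap (P2 k) K p.yp) :=
    Ord.of_poly1 (MvPolynomial.X 1 - C p.c1 * MvPolynomial.X 0 - C p.c2 * MvPolynomial.X 0 ^ 2)
      (by simp) (by rw [A_yp]; simp)
  have hX : ∀ n, Ord k (p.X K) (p.Y K) n (p.X K ^ n) := fun n => by simpa using Ord.left.pow n
  refine SubO.span (p.r1 K) ?_
  rintro g (rfl | rfl | rfl)
  · rw [inv_one, one_mul, A_f]
    exact ((hy.pow 2).add ((((Ord.const _).mul0 (hX 3)).mul hy).mono (by norm_num))).add
      (((Ord.const _).mul0 (hX 5)).mono (by norm_num))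
  · rw [inv_one, one_mul, map_pow, A_Xp]
    exact (hX 6).mono (by norm_num)
  · rw [inv_one, one_mul, map_mul, map_pow, A_Xp]
    exact ((hX 4).mul hy).mono (by norm_num)

lemma S2 : SubO k p.gen (p.X K ^ 2) (p.X K) (p.Y1 K) 2 := by
  have hy : Ord k (p.X K) (p.Y1 K) 1 (p.Y1 K - algebraMap k K p.c2 * p.X K) :=
    Ord.of_poly1 (MvPolynomial.X 1 - C p.c2 * MvPolynomial.X 0) (by simp) (by simp)
  have hX : ∀ n, Ord k (p.X K) (p.Y1 K) n (p.X K ^ n) := fun n => by simpa using Ord.left.pow n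
  refine SubO.span (p.r2 K) ?_
  rintro g (rfl | rfl | rfl)
  · rw [f2]
    exact ((hy.pow 2).add ((((Ord.const _).mul0 (hX 2)).mul hy).mono (by norm_num))).add
      (((Ord.const _).mul0 (hX 3)).mono (by norm_num))
  · rw [g2]
    exact (hX 4).mono (by norm_num)
  · have : (p.X K ^ 2)⁻¹ * algebraMap (P2 k) K (p.Xp ^ 4 * p.yp) =
        p.X K ^ 3 * (p.Y1 K - algebraMap k K p.c2 * p.X K) := by
      rw [map_mul, map_pow, A_Xp, A_yp2]; field_simp [p.X_ne K]
    rw [this]
    exact ((hX 3).mul hy).mono (by norm_num)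

lemma S3 : SubO k p.gen (p.X K ^ 4) (p.X K) (p.s K) 1 := by
  have hg : Ord k (p.X K) (p.s K) 1 ((p.X K ^ 4)⁻¹ * algebraMap (P2 k) K (p.Xp ^ 6)) :=
    Ord.of_poly1 (MvPolynomial.X 0 ^ 2) (by simp) (by rw [g3]; simp)
  refine SubO.span (p.r3 K) ?_
  rintro g (rfl | rfl | rfl)
  · exact Ord.of_poly1 (MvPolynomial.X 1 ^ 2 + C p.l * MvPolynomial.X 0 * MvPolynomial.X 1 +
      C p.c * MvPolynomial.X 0) (by simp) (by rw [f3]; simp)
  · exact hg
  · rw [h_eq]; exact (Ord.right.mono zero_le_one).mul0 hg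

lemma S4 : SubO k p.gen (p.X K ^ 4 * p.s K) (p.s K) (p.Z K) 1 := by
  have hg : Ord k (p.s K) (p.Z K) 1
      ((p.X K ^ 4 * p.s K)⁻¹ * algebraMap (P2 k) K (p.Xp ^ 6)) :=
    Ord.of_poly1 (MvPolynomial.X 0 * MvPolynomial.X 1 ^ 2) (by simp) (by rw [g4]; simp)
  refine SubO.span (p.r4 K) ?_
  rintro g (rfl | rfl | rfl)
  · exact Ord.of_poly1 (MvPolynomial.X 0 + C p.l * MvPolynomial.X 0 * MvPolynomial.X 1 +
      C p.c * MvPolynomial.X 1) (by simp) (by rw [f4]; simp)
  · exact hg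
  · rw [h_eq]; exact (Ord.left.mono zero_le_one).mul0 hg

lemma S5 (h3 : p.c3 ≠ 0) : SubO k p.gen (p.X K ^ 4 * p.s K ^ 2) (p.s K) (p.U K) 1 := by
  have hg : Ord k (p.s K) (p.U K) 1
      ((p.X K ^ 4 * p.s K ^ 2)⁻¹ * algebraMap (P2 k) K (p.Xp ^ 6)) :=
    Ord.of_poly1 (MvPolynomial.X 0 ^ 2 * (MvPolynomial.X 1 + C p.c3) ^ 2) (by simp)
      (by rw [g5]; simp)
  refine SubO.span (p.r5 K) ?_
  rintro g (rfl | rfl | rfl)
  · exact Ord.of_poly1 (C p.l * MvPolynomial.X 0 * (MvPolynomial.X 1 + C p.c3) +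
      C p.c * MvPolynomial.X 1) (by simp) (by rw [p.f5 K h3]; simp)
  · exact hg
  · rw [h_eq]; exact (Ord.left.mono zero_le_one).mul0 hg

lemma S6 (h3 : p.c3 ≠ 0) : SubO k p.gen (p.X K ^ 4 * p.s K ^ 3) (p.s K) (p.U1 K) 1 := by
  have hg : Ord k (p.s K) (p.U1 K) 1
      ((p.X K ^ 4 * p.s K ^ 3)⁻¹ * algebraMap (P2 k) K (p.Xp ^ 6)) :=
    Ord.of_poly1 (MvPolynomial.X 0 * (MvPolynomial.X 0 * (MvPolynomial.X 1 + C p.c4) + C p.c3) ^ 2)
      (by simp) (by rw [g6]; simp)
  refine SubO.span (p.r6 K) ?_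
  rintro g (rfl | rfl | rfl)
  · exact Ord.of_poly1 (C p.l * MvPolynomial.X 0 * (MvPolynomial.X 1 + C p.c4) +
      C p.c * MvPolynomial.X 1) (by simp) (by rw [p.f6 K h3]; simp)
  · exact hg
  · rw [h_eq]; exact (Ord.left.mono zero_le_one).mul0 hg

lemma gen_le_J (h3 : p.c3 ≠ 0) : p.gen ≤ p.J K := p.le_J K (p.S6 K h3)

/-! Units at the other points of the first neighbourhoods. -/

lemma N1 {c : k} (hc : c ≠ p.c1) : TU k (p.X K) (p.Y K / p.X K - algebraMap k K c)
    ((1 : K)⁻¹ * algebraMap (P2 k) K p.f / p.X K ^ 2) := by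
  have hX := p.X_ne K
  have hw := eq_child (w := p.Y K) hX (algebraMap k K c)
  generalize p.Y K / p.X K - algebraMap k K c = u at hw ⊢
  refine TU.of_poly ((MvPolynomial.X 1 + C c - C p.c1 - C p.c2 * MvPolynomial.X 0) ^ 2 +
    C p.l * MvPolynomial.X 0 ^ 2 * (MvPolynomial.X 1 + C c - C p.c1 - C p.c2 * MvPolynomial.X 0)
    + C p.c * MvPolynomial.X 0 ^ 3) (by simp [sub_eq_zero, hc]) ?_
  rw [A_f, A_yp, hw]; simp; field_simp

lemma I1 : TU k (p.Y K) (p.X K / p.Y K)
    ((1 : K)⁻¹ * algebraMap (P2 k) K p.f / p.Y K ^ 2) := by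
  have hY := (p.i1 K).right_ne
  have hw := eq_inf (e := p.X K) hY
  generalize p.X K / p.Y K = u at hw ⊢
  refine TU.of_poly ((1 - C p.c1 * MvPolynomial.X 1 -
    C p.c2 * MvPolynomial.X 0 * MvPolynomial.X 1 ^ 2) ^ 2 +
    C p.l * MvPolynomial.X 0 ^ 2 * MvPolynomial.X 1 ^ 3 * (1 - C p.c1 * MvPolynomial.X 1 -
    C p.c2 * MvPolynomial.X 0 * MvPolynomial.X 1 ^ 2)
    + C p.c * MvPolynomial.X 0 ^ 3 * MvPolynomial.X 1 ^ 5) (by simp) ?_
  rw [A_f, A_yp, hw]; simp; field_simp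

lemma N2 {c : k} (hc : c ≠ p.c2) : TU k (p.X K) (p.Y1 K / p.X K - algebraMap k K c)
    ((p.X K ^ 2)⁻¹ * algebraMap (P2 k) K p.f / p.X K ^ 2) := by
  have hX := p.X_ne K
  have hw := eq_child (w := p.Y1 K) hX (algebraMap k K c)
  generalize p.Y1 K / p.X K - algebraMap k K c = u at hw ⊢
  refine TU.of_poly ((MvPolynomial.X 1 + C c - C p.c2) ^ 2 +
    C p.l * MvPolynomial.X 0 * (MvPolynomial.X 1 + C c - C p.c2)
    + C p.c * MvPolynomial.X 0) (by simp [sub_eq_zero, hc]) ?_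
  rw [f2, hw]; simp; field_simp

lemma I2 : TU k (p.Y1 K) (p.X K / p.Y1 K)
    ((p.X K ^ 2)⁻¹ * algebraMap (P2 k) K p.f / p.Y1 K ^ 2) := by
  have hY := (p.i2 K).right_ne
  have hw := eq_inf (e := p.X K) hY
  generalize p.X K / p.Y1 K = u at hw ⊢
  refine TU.of_poly ((1 - C p.c2 * MvPolynomial.X 1) ^ 2 +
    C p.l * MvPolynomial.X 0 * MvPolynomial.X 1 ^ 2 * (1 - C p.c2 * MvPolynomial.X 1)
    + C p.c * MvPolynomial.X 0 * MvPolynomial.X 1 ^ 3) (by simp) ?_
  rw [f2, hw]; simp; field_simp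

lemma N3 (h3 : p.c3 ≠ 0) (c : k) : TU k (p.X K) (p.s K / p.X K - algebraMap k K c)
    ((p.X K ^ 4)⁻¹ * algebraMap (P2 k) K p.f / p.X K ^ 1) := by
  have hX := p.X_ne K
  have hw := eq_child (w := p.s K) hX (algebraMap k K c)
  generalize p.s K / p.X K - algebraMap k K c = u at hw ⊢
  refine TU.of_poly (MvPolynomial.X 0 * (MvPolynomial.X 1 + C c) ^ 2 +
    C p.l * MvPolynomial.X 0 * (MvPolynomial.X 1 + C c) + C p.c) (by simp [p.c_ne h3]) ?_
  rw [f3, hw]; simp; field_simp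

lemma N4 (h3 : p.c3 ≠ 0) {c : k} (hc : c ≠ p.c3) :
    TU k (p.s K) (p.Z K / p.s K - algebraMap k K c)
    ((p.X K ^ 4 * p.s K)⁻¹ * algebraMap (P2 k) K p.f / p.s K ^ 1) := by
  have hs := p.s_ne K
  have hw := eq_child (w := p.Z K) hs (algebraMap k K c)
  generalize p.Z K / p.s K - algebraMap k K c = u at hw ⊢
  refine TU.of_poly (1 + C p.l * MvPolynomial.X 0 * (MvPolynomial.X 1 + C c) +
    C p.c * (MvPolynomial.X 1 + C c)) ?_ ?_
  · have : 1 + p.c * c ≠ 0 := by
      intro h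
      apply hc
      linear_combination (-p.c3) * h + c * p.c_mul h3
    simpa using this
  · rw [f4, hw]; simp; field_simp

lemma I4 (h3 : p.c3 ≠ 0) : TU k (p.Z K) (p.s K / p.Z K)
    ((p.X K ^ 4 * p.s K)⁻¹ * algebraMap (P2 k) K p.f / p.Z K ^ 1) := by
  have hY := (p.i4 K).right_ne
  have hw := eq_inf (e := p.s K) hY
  rw [f4]
  generalize p.s K / p.Z K = u at hw ⊢
  refine TU.of_poly (MvPolynomial.X 1 + C p.l * MvPolynomial.X 0 * MvPolynomial.X 1 + C p.c)
    (by simp [p.c_ne h3]) ?_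
  rw [hw]; simp; field_simp

lemma N5 (h3 : p.c3 ≠ 0) {c : k} (hc : c ≠ p.c4) :
    TU k (p.s K) (p.U K / p.s K - algebraMap k K c)
    ((p.X K ^ 4 * p.s K ^ 2)⁻¹ * algebraMap (P2 k) K p.f / p.s K ^ 1) := by
  have hs := p.s_ne K
  have hw := eq_child (w := p.U K) hs (algebraMap k K c)
  generalize p.U K / p.s K - algebraMap k K c = u at hw ⊢
  refine TU.of_poly (C p.l * (MvPolynomial.X 0 * (MvPolynomial.X 1 + C c) + C p.c3) +
    C p.c * (MvPolynomial.X 1 + C c)) ?_ ?_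
  · have : p.l * p.c3 + p.c * c ≠ 0 := by
      intro h
      apply hc
      apply mul_left_cancel₀ (p.c_ne h3)
      linear_combination h - p.l_mul h3
    simpa using this
  · rw [p.f5 K h3, hw]; simp; field_simp

lemma I5 (h3 : p.c3 ≠ 0) : TU k (p.U K) (p.s K / p.U K)
    ((p.X K ^ 4 * p.s K ^ 2)⁻¹ * algebraMap (P2 k) K p.f / p.U K ^ 1) := by
  have hY := (p.i5 K).right_ne
  have hw := eq_inf (e := p.s K) hY
  rw [p.f5 K h3]
  generalize p.s K / p.U K = u at hw ⊢
  refine TU.of_poly (C p.l * MvPolynomial.X 1 * (MvPolynomial.X 0 + C p.c3) + C p.c)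
    (by simp [p.c_ne h3]) ?_
  rw [hw]; simp; field_simp

lemma N6 (h3 : p.c3 ≠ 0) (c : k) :
    TU k (p.s K) (p.U1 K / p.s K - algebraMap k K c)
    ((p.X K ^ 4 * p.s K ^ 3)⁻¹ * algebraMap (P2 k) K (p.Xp ^ 6) / p.s K ^ 1) := by
  have hs := p.s_ne K
  have hw := eq_child (w := p.U1 K) hs (algebraMap k K c)
  generalize p.U1 K / p.s K - algebraMap k K c = u at hw ⊢
  refine TU.of_poly ((MvPolynomial.X 0 * (MvPolynomial.X 0 * (MvPolynomial.X 1 + C c) + C p.c4)
    + C p.c3) ^ 2) (by simp [h3]) ?_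
  rw [g6, hw]; simp; field_simp

lemma I6 (h3 : p.c3 ≠ 0) : TU k (p.U1 K) (p.s K / p.U1 K)
    ((p.X K ^ 4 * p.s K ^ 3)⁻¹ * algebraMap (P2 k) K p.f / p.U1 K ^ 1) := by
  have hY := (p.i6 K).right_ne
  have hw := eq_inf (e := p.s K) hY
  rw [p.f6 K h3]
  generalize p.s K / p.U1 K = u at hw ⊢
  refine TU.of_poly (C p.l * MvPolynomial.X 1 * (MvPolynomial.X 0 + C p.c4) + C p.c)
    (by simp [p.c_ne h3]) ?_
  rw [hw]; simp; field_simp

end Par

end Pool.Agent.Work.MP_41a257_ag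
end

-- merged part: Pool.Agent.Work.MP_41a257_ag.Basis
section
/-!
Completeness of the valuation ideals `J p`, the monomial basis, and coordinates.
-/

open IsLocalRing MvPolynomial

namespace Pool.Agent.Work.MP_41a257_ag

/-- The monomials `1, x, …, x ^ 5, y, x y, x ^ 2 y, x ^ 3 y`. -/
noncomputable def mb (S : Type*) [CommRing S] : Fin 10 → MvPolynomial (Fin 2) S :=
  ![1, X 0, X 0 ^ 2, X 0 ^ 3, X 0 ^ 4, X 0 ^ 5, X 1, X 0 * X 1, X 0 ^ 2 * X 1, X 0 ^ 3 * X 1]

lemma sum_mb {S : Type*} [CommRing S] (c : Fin 10 → S) : ∑ i, c i • mb S i =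
    C (c 0) + C (c 1) * X 0 + C (c 2) * X 0 ^ 2 + C (c 3) * X 0 ^ 3 + C (c 4) * X 0 ^ 4 +
      C (c 5) * X 0 ^ 5 + C (c 6) * X 1 + C (c 7) * (X 0 * X 1) + C (c 8) * (X 0 ^ 2 * X 1) +
      C (c 9) * (X 0 ^ 3 * X 1) := by
  simp [Fin.sum_univ_succ, mb, smul_eq_C_mul]
  ring

lemma span_mb {S : Type*} [CommRing S] (J : Ideal (MvPolynomial (Fin 2) S))
    (h1 : ∃ c : Fin 10 → S, X 1 ^ 2 - ∑ i, c i • mb S i ∈ J)
    (h2 : ∃ c : Fin 10 → S, X 0 ^ 6 - ∑ i, c i • mb S i ∈ J)
    (h3 : ∃ c : Fin 10 → S, X 0 ^ 4 * X 1 - ∑ i, c i • mb S i ∈ J)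
    (r : MvPolynomial (Fin 2) S) : ∃ c : Fin 10 → S, r - ∑ i, c i • mb S i ∈ J := by
  let N : Submodule S (MvPolynomial (Fin 2) S) :=
    { carrier := {r | ∃ c : Fin 10 → S, r - ∑ i, c i • mb S i ∈ J}
      add_mem' := by
        rintro a b ⟨c, hc⟩ ⟨d, hd⟩
        refine ⟨c + d, ?_⟩
        convert J.add_mem hc hd using 1
        simp only [Pi.add_apply, add_smul, Finset.sum_add_distrib]
        ring
      zero_mem' := ⟨0, by simp⟩
      smul_mem' := by
        rintro s a ⟨c, hc⟩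
        refine ⟨s • c, ?_⟩
        convert J.mul_mem_left (C s) hc using 1
        simp only [Pi.smul_apply, smul_eq_mul, mul_smul, ← Finset.smul_sum]
        rw [← smul_eq_C_mul, smul_sub] }
  have hb : ∀ i, mb S i ∈ N := fun i => ⟨Pi.single i 1, by simp [Pi.single_apply]⟩
  have key : ∀ z : MvPolynomial (Fin 2) S, (∀ i, z * mb S i ∈ N) → ∀ a ∈ N, z * a ∈ N := by
    rintro z hz a ⟨c, hc⟩
    have h4 : z * (a - ∑ i, c i • mb S i) ∈ N := ⟨0, by simpa using J.mul_mem_left z hc⟩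
    have h5 : ∑ i, c i • (z * mb S i) ∈ N := N.sum_mem fun i _ => N.smul_mem _ (hz i)
    convert N.add_mem h4 h5 using 1
    simp only [← mul_smul_comm, ← Finset.mul_sum]
    ring
  have hx : ∀ a ∈ N, X 0 * a ∈ N := by
    apply key
    intro i
    fin_cases i
    · convert hb 1 using 1; simp [mb]
    · convert hb 2 using 1; simp [mb]; ring
    · convert hb 3 using 1; simp [mb]; ring
    · convert hb 4 using 1; simp [mb]; ring
    · convert hb 5 using 1; simp [mb]; ring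
    · convert (show _ ∈ N from h2) using 1; simp [mb]; ring
    · convert hb 7 using 1; simp [mb]
    · convert hb 8 using 1; simp [mb]; ring
    · convert hb 9 using 1; simp [mb]; ring
    · convert (show _ ∈ N from h3) using 1; simp [mb]; ring
  have hy : ∀ a ∈ N, X 1 * a ∈ N := by
    apply key
    intro i
    fin_cases i
    · convert hb 6 using 1; simp [mb]
    · convert hb 7 using 1; simp [mb]; ring
    · convert hb 8 using 1; simp [mb]; ring
    · convert hb 9 using 1; simp [mb]; ring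
    · convert (show _ ∈ N from h3) using 1; simp [mb]; ring
    · convert hx _ h3 using 1; simp [mb]; ring
    · convert (show _ ∈ N from h1) using 1; simp [mb]; ring
    · convert hx _ h1 using 1; simp [mb]; ring
    · convert hx _ (hx _ h1) using 1; simp [mb]; ring
    · convert hx _ (hx _ (hx _ h1)) using 1; simp [mb]; ring
  change r ∈ N
  induction r using MvPolynomial.induction_on with
  | C s =>
    convert N.smul_mem s (hb 0) using 1
    simp [mb, smul_eq_C_mul]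
  | add a b ha hb => exact N.add_mem ha hb
  | mul_X a i ha =>
    rw [mul_comm]
    fin_cases i
    · exact hx a ha
    · exact hy a ha

variable {k : Type*} [Field k] {K : Type*} [Field K] [Algebra k K]

lemma eq_zero_of_sum_mem_DV {e u : K} (hi : Indep k e u) {ι : Type*} [Fintype ι] (n : ι → ℕ)
    (hn : Function.Injective n) {N : ℕ} (hlt : ∀ i, n i < N) (y : ι → K)
    (hy : ∀ i, DU k e u (y i)) (d : ι → k)
    (h : (∑ i, algebraMap k K (d i) * y i * e ^ n i) / e ^ N ∈ DV k e u) : ∀ i, d i = 0 := by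
  classical
  by_contra hne
  push Not at hne
  obtain ⟨i0, hi0, hmin⟩ := Finset.exists_min_image (Finset.univ.filter fun i => d i ≠ 0) n
    (by obtain ⟨i, hi⟩ := hne; exact ⟨i, by simpa using hi⟩)
  have hd : d i0 ≠ 0 := by simpa using hi0
  have ht : ∑ i ∈ Finset.univ.erase i0, algebraMap k K (d i) * y i * e ^ (n i - n i0 - 1)
      ∈ DV k e u :=
    sum_mem fun i _ => mul_mem (mul_mem (DV_const _ _ _) (hy i).mem) (pow_mem (DV_left _ _) _)
  have hu := ((DU.const hd).mul (hy i0)).add ht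
  apply hu.not_div_pow hi (hlt i0)
  convert h using 2
  rw [← Finset.add_sum_erase _ _ (Finset.mem_univ i0), add_mul, Finset.mul_sum, Finset.sum_mul]
  congr 1
  refine Finset.sum_congr rfl fun i hi => ?_
  by_cases h0 : d i = 0
  · simp [h0]
  · have h1 := hmin i (by simpa using h0)
    have h2 : n i ≠ n i0 := fun h => (Finset.mem_erase.mp hi).1 (hn h)
    obtain ⟨m, hm⟩ : ∃ m, n i = n i0 + m + 1 := ⟨n i - n i0 - 1, by omega⟩
    rw [hm, show n i0 + m + 1 - n i0 - 1 = m by omega]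
    ring

namespace Par

variable (K) [Algebra (P2 k) K] (p : Par k) [IsScalarTower k (P2 k) K] [IsFractionRing (P2 k) K]

lemma mem_J_pow {g : P2 k} {j : ℕ} (hg : g ∈ p.J K ^ j) :
    algebraMap (P2 k) K g / p.s K ^ (12 * j) ∈ DV k (p.s K) (p.U1 K / p.s K) := by
  induction j generalizing g with
  | zero => simpa using (p.r6 K g).div_mem_DV (p.s_ne K)
  | succ j ih =>
    rw [pow_succ] at hg
    refine Submodule.mul_induction_on hg ?_ ?_
    · intro a ha b hb
      convert mul_mem (ih ha) ((p.mem_J K b).mp hb) using 1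
      rw [map_mul, mul_add, pow_add, div_mul_div_comm]
    · intro a b ha hb
      rw [map_add, add_div]
      exact add_mem ha hb

lemma J_complete : IsComplete (p.J K) := by
  intro x P hP hc h0
  have hs := p.s_ne K
  have hi := (p.i6 K).div
  rw [mem_J]
  by_cases hx0 : algebraMap (P2 k) K x = 0
  · simp [hx0]
  obtain ⟨m, y, hy, hxy⟩ := exists_DU hi (by simpa using (p.r6 K x).div_mem_DV hs) hx0
  by_cases hm : 12 ≤ m
  · obtain ⟨d, rfl⟩ := Nat.exists_eq_add_of_le hm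
    have : algebraMap (P2 k) K x / p.s K ^ 12 = y * p.s K ^ d := by
      rw [hxy]; field_simp; ring
    rw [this]
    exact mul_mem hy.mem (pow_mem (DV_left _ _) d)
  exfalso
  obtain ⟨d, hd⟩ := Nat.exists_eq_add_of_lt (not_le.mp hm)
  rw [Polynomial.eval_eq_sum_range, Finset.sum_range_succ, hP.coeff_natDegree, one_mul] at h0
  have h1 := congr(algebraMap (P2 k) K $h0)
  simp only [map_add, map_sum, map_mul, map_pow, map_zero, hxy] at h1
  apply (hy.pow P.natDegree).not_div hi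
  have h2 : y ^ P.natDegree / p.s K = -∑ i ∈ Finset.range P.natDegree,
      algebraMap (P2 k) K (P.coeff i) * (y * p.s K ^ m) ^ i /
        (p.s K ^ (m * P.natDegree) * p.s K) := by
    rw [← Finset.sum_div, eq_neg_of_add_eq_zero_left h1, mul_pow, ← pow_mul]
    field_simp
  rw [h2]
  refine neg_mem (sum_mem fun i hi' => ?_)
  obtain ⟨j, hj⟩ := Nat.exists_eq_add_of_lt (Finset.mem_range.mp hi')
  have h3 := p.mem_J_pow K (hc i)
  rw [hj, show i + j + 1 - i = j + 1 by omega, hd] at h3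
  convert mul_mem (mul_mem h3 (pow_mem hy.mem i)) (pow_mem (DV_left _ _) (d * j + d + j)) using 1
  rw [hj]
  field_simp
  ring

lemma indep_mb (h3 : p.c3 ≠ 0) (c : Fin 10 → k) (h : ∑ i, c i • mb k i ∈ p.J K) : c = 0 := by
  have hs := p.s_ne K
  have hv : DU k (p.s K) (p.U1 K / p.s K) (p.U K + algebraMap k K p.c3) := by
    refine DU.of_poly h3 0 (MvPolynomial.X 0 * MvPolynomial.X 1 + C p.c4) ?_
    rw [p.U_eq K]; simp; field_simp; ring
  have hX : p.X K = p.s K ^ 2 * (p.U K + algebraMap k K p.c3) := by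
    rw [p.X_eq K, p.Z_eq K]; ring
  have hx : xK k K = p.X K + algebraMap k K p.a := by simp [X]
  have hy : yK k K = p.X K ^ 2 * p.s K + algebraMap k K p.b + algebraMap k K p.c1 * p.X K +
      algebraMap k K p.c2 * p.X K ^ 2 := by
    rw [← A_yp3, A_yp, Y]; ring
  generalize p.U K + algebraMap k K p.c3 = v at hv hX
  have hd := eq_zero_of_sum_mem_DV (p.i6 K).div ![0, 2, 4, 6, 8, 10, 5, 7, 9, 11] (by decide)
    (N := 12) (by decide) (fun i => v ^ (![0, 1, 2, 3, 4, 5, 2, 3, 4, 5] : Fin 10 → ℕ) i)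
    (fun i => hv.pow _)
    ![c 0 + p.a * c 1 + p.a ^ 2 * c 2 + p.a ^ 3 * c 3 + p.a ^ 4 * c 4 + p.a ^ 5 * c 5 +
        p.b * (c 6 + p.a * c 7 + p.a ^ 2 * c 8 + p.a ^ 3 * c 9),
      c 1 + 2 * p.a * c 2 + 3 * p.a ^ 2 * c 3 + 4 * p.a ^ 3 * c 4 + 5 * p.a ^ 4 * c 5 +
        p.b * (c 7 + 2 * p.a * c 8 + 3 * p.a ^ 2 * c 9) +
        p.c1 * (c 6 + p.a * c 7 + p.a ^ 2 * c 8 + p.a ^ 3 * c 9),
      c 2 + 3 * p.a * c 3 + 6 * p.a ^ 2 * c 4 + 10 * p.a ^ 3 * c 5 +
        p.b * (c 8 + 3 * p.a * c 9) + p.c1 * (c 7 + 2 * p.a * c 8 + 3 * p.a ^ 2 * c 9) +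
        p.c2 * (c 6 + p.a * c 7 + p.a ^ 2 * c 8 + p.a ^ 3 * c 9),
      c 3 + 4 * p.a * c 4 + 10 * p.a ^ 2 * c 5 + p.b * c 9 + p.c1 * (c 8 + 3 * p.a * c 9) +
        p.c2 * (c 7 + 2 * p.a * c 8 + 3 * p.a ^ 2 * c 9),
      c 4 + 5 * p.a * c 5 + p.c1 * c 9 + p.c2 * (c 8 + 3 * p.a * c 9),
      c 5 + p.c2 * c 9,
      c 6 + p.a * c 7 + p.a ^ 2 * c 8 + p.a ^ 3 * c 9,
      c 7 + 2 * p.a * c 8 + 3 * p.a ^ 2 * c 9,
      c 8 + 3 * p.a * c 9,
      c 9] (by
      rw [mem_J, sum_mb] at h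
      convert h using 2
      simp only [map_add, map_mul, map_pow, A_C, hx, hy, hX, Fin.sum_univ_succ]
      simp [map_ofNat]
      ring)
  have h9 : c 9 = 0 := by simpa using hd 9
  have h8 : c 8 = 0 := by simpa [h9] using hd 8
  have h7 : c 7 = 0 := by simpa [h9, h8] using hd 7
  have h6 : c 6 = 0 := by simpa [h9, h8, h7] using hd 6
  have h5 : c 5 = 0 := by simpa [h9] using hd 5
  have h4 : c 4 = 0 := by simpa [h9, h8, h5] using hd 4
  have h3 : c 3 = 0 := by simpa [h9, h8, h7, h5, h4] using hd 3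
  have h2 : c 2 = 0 := by simpa [h9, h8, h7, h6, h5, h4, h3] using hd 2
  have h1 : c 1 = 0 := by simpa [h9, h8, h7, h6, h5, h4, h3, h2] using hd 1
  have h0 : c 0 = 0 := by simpa [h9, h8, h7, h6, h5, h4, h3, h2, h1] using hd 0
  ext i
  fin_cases i
  exacts [h0, h1, h2, h3, h4, h5, h6, h7, h8, h9]

lemma coord_unique (h3 : p.c3 ≠ 0) {r : P2 k} {c d : Fin 10 → k}
    (hc : r - ∑ i, c i • mb k i ∈ p.J K) (hd : r - ∑ i, d i • mb k i ∈ p.J K) : c = d := by
  rw [← sub_eq_zero]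
  apply p.indep_mb K h3
  convert (p.J K).sub_mem hd hc using 1
  simp only [Pi.sub_apply, sub_smul, Finset.sum_sub_distrib]
  ring

lemma coord_y (h3 : p.c3 ≠ 0) {c : Fin 10 → k}
    (hc : MvPolynomial.X 1 ^ 2 - ∑ i, c i • mb k i ∈ p.J K) :
    c 9 = -p.l ∧ c 8 = 2 * p.c2 + 3 * p.a * p.l := by
  obtain ⟨e0, he0⟩ : ∃ e, e = -p.b ^ 2 := ⟨_, rfl⟩
  obtain ⟨e1, he1⟩ : ∃ e, e = -2 * p.b * p.c1 := ⟨_, rfl⟩
  obtain ⟨e2, he2⟩ : ∃ e, e = -(p.c1 ^ 2 + 2 * p.b * p.c2) := ⟨_, rfl⟩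
  obtain ⟨e3, he3⟩ : ∃ e, e = -2 * p.c1 * p.c2 + p.l * p.b := ⟨_, rfl⟩
  obtain ⟨e4, he4⟩ : ∃ e, e = -p.c2 ^ 2 + p.l * p.c1 := ⟨_, rfl⟩
  obtain ⟨e5, he5⟩ : ∃ e, e = p.l * p.c2 - p.c := ⟨_, rfl⟩
  have := p.coord_unique K h3 hc (d :=
    ![e0 - p.a * e1 + p.a ^ 2 * e2 - p.a ^ 3 * e3 + p.a ^ 4 * e4 - p.a ^ 5 * e5,
      e1 - 2 * p.a * e2 + 3 * p.a ^ 2 * e3 - 4 * p.a ^ 3 * e4 + 5 * p.a ^ 4 * e5,
      e2 - 3 * p.a * e3 + 6 * p.a ^ 2 * e4 - 10 * p.a ^ 3 * e5,
      e3 - 4 * p.a * e4 + 10 * p.a ^ 2 * e5,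
      e4 - 5 * p.a * e5, e5,
      2 * p.b - 2 * p.a * p.c1 + 2 * p.a ^ 2 * p.c2 + p.a ^ 3 * p.l,
      2 * p.c1 - 4 * p.a * p.c2 - 3 * p.a ^ 2 * p.l,
      2 * p.c2 + 3 * p.a * p.l, -p.l]) (by
      convert p.gen_le_J K h3 p.f_mem using 1
      rw [sum_mb]
      simp [f, yp, Xp, he0, he1, he2, he3, he4, he5, map_ofNat]
      ring)
  subst this
  simp

lemma coord_x (h3 : p.c3 ≠ 0) {c : Fin 10 → k}
    (hc : MvPolynomial.X 0 ^ 6 - ∑ i, c i • mb k i ∈ p.J K) : c 4 = -15 * p.a ^ 2 := by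
  have := p.coord_unique K h3 hc (d :=
    ![-p.a ^ 6, 6 * p.a ^ 5, -15 * p.a ^ 4, 20 * p.a ^ 3, -15 * p.a ^ 2, 6 * p.a, 0, 0, 0, 0]) (by
      convert p.gen_le_J K h3 p.g_mem using 1
      rw [sum_mb]
      simp [Xp, map_ofNat]
      ring)
  subst this
  simp

lemma not_vertical {I : Ideal (P2 k)} {c : Fin 10 → k}
    (hc : MvPolynomial.X 1 ^ 2 - ∑ i, c i • mb k i ∈ I) :
    ¬ SubO k I (p.Y K ^ 2) (p.Y K) (p.X K / p.Y K) 1 := by
  intro h
  obtain ⟨F, G, hF, hG, h1⟩ := h _ hc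
  rw [pow_one, mem_m0] at hF
  have hY := (p.i1 K).right_ne
  have h2 : aeval ![MvPolynomial.X 0 * MvPolynomial.X 1 + C p.a, MvPolynomial.X 0 + C p.b]
      (MvPolynomial.X 1 ^ 2 - ∑ i, c i • mb k i : P2 k) * G = MvPolynomial.X 0 ^ 2 * F := by
    apply (p.i1 K).swap.div
    rw [map_mul, map_mul, ev_comp, ← h1, algebraMap_eq_ev]
    have e1 : ev k (p.Y K) (p.X K / p.Y K) (MvPolynomial.X 0 * MvPolynomial.X 1 + C p.a) =
        xK k K := by
      simp [mul_div_cancel₀, hY]; simp [X]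
    have e2 : ev k (p.Y K) (p.X K / p.Y K) (MvPolynomial.X 0 + C p.b) = yK k K := by
      simp [Y]
    rw [e1, e2]
    simp only [map_pow, ev_X0]
    field_simp
  have h3 := congr(aeval ![(MvPolynomial.X 0 : P2 k), 0] $h2)
  have hG' := cc_comp (MvPolynomial.X 0) 0 (by simp) (by simp) G
  have hF' := cc_comp (MvPolynomial.X 0) 0 (by simp) (by simp) F
  rw [map_mul, map_mul] at h3
  generalize aeval ![(MvPolynomial.X 0 : P2 k), 0] G = G' at h3 hG'
  generalize aeval ![(MvPolynomial.X 0 : P2 k), 0] F = F' at h3 hF'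
  rw [← hG'] at hG
  rw [hF] at hF'
  obtain ⟨α, β, h4⟩ : ∃ α β : k, (MvPolynomial.X 0 ^ 2 + C α * MvPolynomial.X 0 + C β) * G' =
      MvPolynomial.X 0 ^ 2 * F' := by
    refine ⟨2 * p.b - (c 6 + c 7 * p.a + c 8 * p.a ^ 2 + c 9 * p.a ^ 3),
      p.b ^ 2 - (c 0 + c 1 * p.a + c 2 * p.a ^ 2 + c 3 * p.a ^ 3 + c 4 * p.a ^ 4 + c 5 * p.a ^ 5)
        - (c 6 + c 7 * p.a + c 8 * p.a ^ 2 + c 9 * p.a ^ 3) * p.b, ?_⟩
    convert h3 using 2
    · rw [sum_mb]
      simp [map_ofNat]
      ring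
    · simp
  have hβ : β = 0 := by
    have := congr(constantCoeff $h4)
    simpa [hG] using this
  have h5 : (MvPolynomial.X 0 + C α) * G' = MvPolynomial.X 0 * F' := by
    apply mul_left_cancel₀ (X_ne_zero (R := k) (0 : Fin 2))
    rw [hβ, map_zero] at h4
    linear_combination h4
  have hα : α = 0 := by
    have := congr(constantCoeff $h5)
    simpa [hG] using this
  have h6 : G' = F' := by
    apply mul_left_cancel₀ (X_ne_zero (R := k) (0 : Fin 2))
    rw [hα, map_zero] at h5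
    linear_combination h5
  exact hG (h6 ▸ hF')

end Par

end Pool.Agent.Work.MP_41a257_ag
end
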