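import Mathlib

/-!
Weighted clusters of ideals of a coordinate ring `R` with fraction field `K`, in the
ring-theoretic language of Zariski, Abhyankar and Lipman: a point, proper or infinitely near,
is its local ring, a local subring of `K`.
-/

open IsLocalRing

namespace Pool.Agent.Work.MP_41a257_ag

section Points

variable {K : Type*} [Field K]

/-- The affine chart `T[m/a]` of the blowup of the maximal ideal `m` of `T`. -/
def blowupChart (T : LocalSubring K) (a : K) : Subring K :=
  Subring.closure {z | ∃ m ∈ maximalIdeal T.toSubring, z * a = m}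

/-- `T'` is a quadratic transform of `T`: the local ring of a closed point of the exceptional
curve of the blowup of the point `T`. -/
def IsQuadTransform (T T' : LocalSubring K) : Prop :=
  ∃ a ∈ maximalIdeal T.toSubring, a ≠ 0 ∧
    ∃ (n : Ideal (blowupChart T a)) (_ : n.IsMaximal), (∃ a' ∈ n, (a' : K) = a) ∧
      T' = LocalSubring.ofPrime (blowupChart T a) n

/-- `T'` is equal or infinitely near to `T`: reached from `T` by successive point blowups. -/
def Precedes (T T' : LocalSubring K) : Prop :=
  Relation.ReflTransGen IsQuadTransform T T'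

/-- The valuation ring of the order valuation of `T`, that is, the local ring of the
exceptional curve of the blowup of `T`: fractions `a / b` with `ord b ≤ n ≤ ord a`. -/
def orderValRing (T : LocalSubring K) : Set K :=
  {z | ∃ (n : ℕ) (a b : T.toSubring), a ∈ maximalIdeal T.toSubring ^ n ∧
    b ∉ maximalIdeal T.toSubring ^ (n + 1) ∧ z * b = a}

/-- `T'` is proximate to `T`: infinitely near to `T`, different from it, and lying on the strict
transform of the exceptional curve of the blowup of `T`. -/
def IsProximate (T T' : LocalSubring K) : Prop :=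
  Precedes T T' ∧ T ≠ T' ∧ (T'.toSubring : Set K) ⊆ orderValRing T

end Points

section Clusters

variable {R : Type*} [CommRing R] (K : Type*) [Field K] [Algebra R K]

/-- The points of `Spec R`, proper or infinitely near. -/
def IsPoint (R : Type*) [CommRing R] {K : Type*} [Field K] [Algebra R K]
    (T : LocalSubring K) : Prop :=
  ∃ (n : Ideal (algebraMap R K).range) (_ : n.IsMaximal),
    Precedes (LocalSubring.ofPrime (algebraMap R K).range n) T

variable {K} in
/-- The transform `(I T) (I T)⁻¹` of `I` at `T`, where `(I T)⁻¹ = {z ∈ K | z I ⊆ T}`. -/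
def transform (I : Ideal R) (T : LocalSubring K) : Ideal T.toSubring :=
  Ideal.span {t | ∃ g ∈ I, ∃ z : K, (∀ g' ∈ I, z * algebraMap R K g' ∈ T.toSubring) ∧
    (t : K) = z * algebraMap R K g}

variable {K} in
/-- The weight of `I` at `T`: the order at `T` of the transform of `I`. -/
noncomputable def weight (I : Ideal R) (T : LocalSubring K) : ℕ∞ :=
  ⨆ (ν : ℕ) (_ : transform I T ≤ maximalIdeal T.toSubring ^ ν), (ν : ℕ∞)

/-- The cluster of `I`: the points through which `I` passes. -/
def cluster (I : Ideal R) : Set (LocalSubring K) :=
  {T | IsPoint R T ∧ 0 < weight I T}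

/-- The weighted clusters of `I` and `J` have the same combinatorial type. -/
def Equisingular (I J : Ideal R) : Prop :=
  ∃ e : cluster K I ≃ cluster K J,
    (∀ p q, Precedes p.1 q.1 ↔ Precedes (e p).1 (e q).1) ∧
    (∀ p q, IsProximate p.1 q.1 ↔ IsProximate (e p).1 (e q).1) ∧
    ∀ p, weight I p.1 = weight J (e p).1

/-- `I` is complete (integrally closed): it contains every root `x` of an equation
`x ^ n + a₁ x ^ (n - 1) + ⋯ + aₙ = 0` with `aᵢ ∈ I ^ i`. -/
def IsComplete (I : Ideal R) : Prop :=
  ∀ (x : R) (p : Polynomial R), p.Monic → (∀ i, p.coeff i ∈ I ^ (p.natDegree - i)) →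
    p.eval x = 0 → x ∈ I

end Clusters

section Hilbert

variable (k : Type*) [Field k] {R : Type*} [CommRing R] [Algebra k R]
  (K : Type*) [Field K] [Algebra R K] {ι : Type*} [Fintype ι]

/-- The equisingular stratum `E(I₀)`: complete ideals of the colength of `I₀` equisingular
to `I₀`. -/
def stratum (I₀ : Ideal R) : Set (Ideal R) :=
  {I | IsComplete I ∧ Module.finrank k (R ⧸ I) = Module.finrank k (R ⧸ I₀) ∧ Equisingular K I₀ I}

/-- The affine chart `U_b` of the Hilbert scheme: the ideals `I` such that `b` is a basis of
`R ⧸ I`. -/
def hilbChart (b : ι → R) : Set (Ideal R) :=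
  {I | ∀ r : R, ∃! c : ι → k, r - ∑ i, c i • b i ∈ I}

/-- The coordinate ring of the reduced closure in `U_b` of a set `E` of points of `U_b`: the
algebra of functions on `E` generated by the coordinates `I ↦ c I i` of the classes of the
elements `r` of `R` in the basis `b` of `R ⧸ I`. -/
def coordRing (b : ι → R) (E : Set (Ideal R)) : Subalgebra k (E → k) :=
  Algebra.adjoin k {φ | ∃ (r : R) (c : E → ι → k) (i : ι),
    (∀ I : E, r - ∑ j, c I j • b j ∈ I.1) ∧ φ = fun I => c I i}

/-- The reduced locally closed subset `E` of `U_b` is smooth at its point `I`: its local ring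
there, the localization of the coordinate ring at the ideal of functions vanishing at `I`,
is smooth over `k`. -/
def IsSmoothPoint (b : ι → R) (E : Set (Ideal R)) (I : E) : Prop :=
  Algebra.IsSmoothAt k
    ((⊥ : Ideal k).comap ((Pi.evalAlgHom k (fun _ : E => k) I).comp (coordRing k b E).val))

end Hilbert

end Pool.Agent.Work.MP_41a257_ag
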